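import Pool.Agent.Lib.MP_b7851d_lc.Free.Phase

/-!
# Free paths have few same-side wins
-/

namespace Pool.Agent.QuadEq.Free

open Pool.Agent.QuadEq.Star

set_option linter.unusedSectionVars false

variable {α : Type*} [DecidableEq α] {iota : α → α} {A A' : List α × List α}
variable {c : Bool} {x y t : α}

/-- The tokens of a state. -/
def tok (A : List α × List α) : Finset α := (A.1 ++ A.2).toFinset

theorem mem_tok : t ∈ tok A ↔ ∃ d, t ∈ wd d A := by
  rw [tok, List.mem_toFinset, mem_app]

theorem Mv.tok_eq (h : Mv iota c x y A A') : tok A' = tok A := by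
  have hy : y ∈ tok A' := by
    rcases ok_mem h.ok c h.hx.mem with h1 | h1
    · exact mem_tok.2 ⟨_, h.side_y h1⟩
    · exact mem_tok.2 ⟨_, h.side_y h1⟩
  ext t
  by_cases hty : t = y
  · subst hty
    exact ⟨fun _ => mem_tok.2 ⟨_, h.hy.mem⟩, fun _ => hy⟩
  · rw [mem_tok, mem_tok]
    constructor
    · rintro ⟨d, hd⟩
      exact ⟨d, (h.side hty).1 hd⟩
    · rintro ⟨d, hd⟩
      exact ⟨d, (h.side hty).2 hd⟩

open Classical in
/-- The number of tokens of the set. -/
noncomputable def sg (iota : α → α) (A : List α × List α) : ℕ :=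
  ((tok A).filter (· ∈ Cs iota A)).card

open Classical in
theorem sg_le : sg iota A ≤ (tok A).card := by
  unfold sg
  exact Finset.card_filter_le _ _

theorem Mv.sg_mix (h : Mv iota c x y A A') (hf : Fr iota A) (hs : iota x ∈ wd (!c) A) :
    sg iota A' = sg iota A := by
  classical
  unfold sg
  rw [h.tok_eq]
  congr 1
  ext t
  rw [Finset.mem_filter, Finset.mem_filter, h.cs_mix hf hs]

theorem Mv.sg_same (h : Mv iota c x y A A') (hf : Fr iota A) (hs : iota x ∈ wd c A)
    (hy : y ∉ Cs iota A') : sg iota A' + 1 = sg iota A := by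
  classical
  unfold sg
  rw [h.tok_eq]
  have hyC := hf.hd h.ok h.hy
  have h1 : (tok A).filter (· ∈ Cs iota A) = insert y ((tok A).filter (· ∈ Cs iota A')) := by
    ext t
    rw [Finset.mem_insert, Finset.mem_filter, Finset.mem_filter]
    constructor
    · rintro ⟨h1, h2⟩
      by_cases hty : t = y
      · exact Or.inl hty
      · exact Or.inr ⟨h1, h.cs_same hf hs h2 hty⟩
    · rintro (h1 | ⟨h1, h2⟩)
      · subst h1
        exact ⟨mem_tok.2 ⟨_, h.hy.mem⟩, hyC⟩
      · exact ⟨h1, h.cs_same' hf hs hy h2⟩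
  rw [h1, Finset.card_insert_of_notMem]
  rw [Finset.mem_filter]
  exact fun h2 => hy h2.2

variable {s : ℕ → List α × List α} {b : ℕ → Bool} {xs ys : ℕ → α}

theorem tok_const {a m i : ℕ} (h : Ph iota s b xs ys a m) (hi : a ≤ i) (hm : i ≤ m + 1) :
    tok (s i) = tok (s a) := by
  induction i, hi using Nat.le_induction with
  | base => rfl
  | succ i hi ih => rw [(h.mv i hi (by omega)).tok_eq, ih (by omega)]

theorem Ph.sg_jump {a m : ℕ} (h : Ph iota s b xs ys a m) (ham : a ≤ m)
    (hsm : iota (xs m) ∈ wd (b m) (s m)) (hj : ys m ∈ Cs iota (s (m + 1))) :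
    sg iota (s a) + 1 ≤ sg iota (s (m + 1)) := by
  classical
  obtain ⟨t, ht1, ht2, ht3⟩ := h.proper ham hsm hj (m - a) a (by omega) le_rfl
  unfold sg
  rw [Nat.succ_le_iff]
  refine Finset.card_lt_card ?_
  rw [Finset.ssubset_iff_of_subset]
  · exact ⟨t, Finset.mem_filter.2 ⟨mem_tok.2 ⟨_, ht1⟩, ht2⟩, fun h' => ht3 (Finset.mem_filter.1 h').2⟩
  · intro u hu
    rw [Finset.mem_filter] at hu ⊢
    rw [tok_const h (by omega) le_rfl]
    exact ⟨hu.1, h.superset ham hsm hj hu.2⟩

/-- **Free paths.** A path of free states has few same-side wins. -/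
theorem count {N : ℕ} (hmv : ∀ i < N, Mv iota (b i) (xs i) (ys i) (s i) (s (i + 1)))
    (hfr : ∀ i < N, Fr iota (s i)) (c : ℕ → ℕ) (c0 : c 0 = 0)
    (hc : ∀ i < N, (iota (xs i) ∈ wd (b i) (s i) → c (i + 1) = c i + 1) ∧
      (iota (xs i) ∈ wd (!(b i)) (s i) → c (i + 1) = c i)) {T : ℕ}
    (hT : (tok (s 0)).card ≤ T) :
    c N ≤ T * (T + 1) + T := by
  have htok : ∀ i ≤ N, tok (s i) = tok (s 0) := by
    intro i
    induction i with
    | zero => intro _; rfl
    | succ i ih => intro hi; rw [(hmv i (by omega)).tok_eq, ih (by omega)]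
  have hsg : ∀ i ≤ N, sg iota (s i) ≤ T := by
    intro i hi
    refine sg_le.trans ?_
    rw [htok i hi]
    exact hT
  have key : ∀ n ≤ N, ∃ a k, a ≤ n ∧ (∀ i, a ≤ i → i < n → iota (xs i) ∈ wd (b i) (s i) →
      ys i ∉ Cs iota (s (i + 1))) ∧ k ≤ sg iota (s a) ∧ c a ≤ k * (T + 1) ∧
      c n + sg iota (s n) = c a + sg iota (s a) := by
    intro n
    induction n with
    | zero =>
      intro _
      exact ⟨0, 0, le_rfl, fun i _ h => absurd h (Nat.not_lt_zero i), Nat.zero_le _, by simp [c0], rfl⟩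
    | succ n ih =>
      intro hn
      obtain ⟨a, k, h1, h2, h3, h4, h5⟩ := ih (by omega)
      have hv := hmv n (by omega)
      have hf := hfr n (by omega)
      rcases ok_mem hv.ok (b n) hv.hx.mem with hs | hs
      · by_cases hj : ys n ∈ Cs iota (s (n + 1))
        · have hph : Ph iota s b xs ys a n :=
            ⟨fun i _ hi => hmv i (by omega), fun i _ hi => hfr i (by omega), h2⟩
          have h6 := hph.sg_jump h1 hs hj
          have h7 := (hc n (by omega)).1 hs
          have h8 := hsg a (by omega)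
          refine ⟨n + 1, k + 1, le_rfl, fun i hi hi' => absurd hi' (by omega), by omega, ?_, rfl⟩
          have : (k + 1) * (T + 1) = k * (T + 1) + (T + 1) := by ring
          omega
        · have h6 := hv.sg_same hf hs hj
          have h7 := (hc n (by omega)).1 hs
          refine ⟨a, k, by omega, ?_, h3, h4, by omega⟩
          intro i hi hi' hsi
          rcases Nat.lt_succ_iff_lt_or_eq.1 hi' with h8 | h8
          · exact h2 i hi h8 hsi
          · subst h8
            exact hj
      · have h6 := hv.sg_mix hf hs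
        have h7 := (hc n (by omega)).2 hs
        refine ⟨a, k, by omega, ?_, h3, h4, by omega⟩
        intro i hi hi' hsi
        rcases Nat.lt_succ_iff_lt_or_eq.1 hi' with h8 | h8
        · exact h2 i hi h8 hsi
        · subst h8
          exact absurd hs (fun h' => ok_dj hv.ok hsi h')
  obtain ⟨a, k, h1, h2, h3, h4, h5⟩ := key N le_rfl
  have h6 := hsg a h1
  have h7 : k * (T + 1) ≤ T * (T + 1) := Nat.mul_le_mul_right _ (by omega)
  omega

end Pool.Agent.QuadEq.Free
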