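import Pool.Agent.Lib.MP_b7851d_lc.Free.Ord

/-!
# Free paths: the largest closed pair of initial segments without same-side pairs
-/

namespace Pool.Agent.QuadEq.Free

open Pool.Agent.QuadEq.Star

set_option linter.unusedSectionVars false

variable {α : Type*} [DecidableEq α] {iota : α → α} {A A' : List α × List α}

/-- A set of tokens which is a pair of initial segments, contains the partner of each of its mixed
tokens, and does not contain the partner of any of its other tokens. -/
structure CSet (iota : α → α) (A : List α × List α) (K : Set α) : Prop where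
  /-- initial segments -/
  down : ∀ d t z, z ∈ K → Bf d A t z → t ∈ K
  /-- mixed tokens -/
  mix : ∀ d z, z ∈ K → z ∈ wd d A → iota z ∈ wd (!d) A → iota z ∈ K
  /-- no same-side pair -/
  same : ∀ d z, z ∈ K → z ∈ wd d A → iota z ∈ wd d A → iota z ∉ K

/-- The largest such set. -/
def Cs (iota : α → α) (A : List α × List α) : Set α := {t | ∃ K, CSet iota A K ∧ t ∈ K}

theorem cs_cset (h : OkW iota A) : CSet iota A (Cs iota A) where
  down := by
    rintro d t z ⟨K, hK, hz⟩ hb
    exact ⟨K, hK, hK.down d t z hz hb⟩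
  mix := by
    rintro d z ⟨K, hK, hz⟩ h1 h2
    exact ⟨K, hK, hK.mix d z hz h1 h2⟩
  same := by
    rintro d z ⟨K, hK, hz⟩ h1 h2 ⟨K', hK', hz'⟩
    rcases bf_total h h1 h2 (ok_ne h h1).symm with h3 | h3
    · have h4 := hK'.down d z _ hz' h3
      exact hK'.same d z h4 h1 h2 hz'
    · have h4 := hK.down d _ z hz h3
      exact hK.same d z hz h1 h2 h4

theorem CSet.sub {K : Set α} (h : CSet iota A K) {t : α} (ht : t ∈ K) : t ∈ Cs iota A := ⟨K, h, ht⟩

/-- Both components are nonempty. -/
def Fr (iota : α → α) (A : List α × List α) : Prop := ∀ d, ∃ t ∈ wd d A, t ∈ Cs iota A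

theorem Fr.hd (hf : Fr iota A) (h : OkW iota A) {d : Bool} {x : α} (hx : Hd d A x) :
    x ∈ Cs iota A := by
  obtain ⟨t, ht, ht'⟩ := hf d
  by_cases htx : x = t
  · rw [htx]; exact ht'
  · rcases bf_total h hx.mem ht htx with h1 | h1
    · exact (cs_cset h).down d x t ht' h1
    · exact absurd h1 (hx.not_bf h)

variable {c d : Bool} {x y t u z : α}

theorem Mv.y_not (h : Mv iota c x y A A') : y ∉ wd c A := fun h' => ok_dj h.ok h' h.hy.mem

/-- In a same-side win the loser goes to the other word. -/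
theorem Mv.y_same (h : Mv iota c x y A A') (hs : iota x ∈ wd c A) : y ∈ wd c A' := h.side_y hs

theorem Mv.y_same' (h : Mv iota c x y A A') (hs : iota x ∈ wd c A) (hd : y ∈ wd d A') : d = c :=
  ok_side h.ok' hd (h.y_same hs)

theorem Mv.y_mix (h : Mv iota c x y A A') (hs : iota x ∈ wd (!c) A) : y ∈ wd (!c) A' := h.side_y hs

/-- After a mixed win every token is on the same side as before. -/
theorem Mv.side_mix (h : Mv iota c x y A A') (hs : iota x ∈ wd (!c) A) :
    t ∈ wd d A' ↔ t ∈ wd d A := by
  by_cases hty : t = y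
  · subst hty
    constructor
    · intro h1
      rw [ok_side h.ok' h1 (h.y_mix hs)]
      exact h.hy.mem
    · intro h1
      rw [ok_side h.ok h1 h.hy.mem]
      exact h.y_mix hs
  · exact h.side hty

/-- A same-side win, first part. -/
theorem Mv.cs_same (h : Mv iota c x y A A') (hf : Fr iota A) (hs : iota x ∈ wd c A)
    (ht : t ∈ Cs iota A) (hty : t ≠ y) : t ∈ Cs iota A' := by
  have hC := cs_cset h.ok
  have hx := hf.hd h.ok h.hx
  have hyC := hf.hd h.ok h.hy
  refine CSet.sub (K := {t | t ∈ Cs iota A ∧ t ≠ y}) ⟨?_, ?_, ?_⟩ ⟨ht, hty⟩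
  · rintro d t z ⟨hz, hzy⟩ hb
    by_cases h1 : t = y
    · exfalso
      subst h1
      obtain rfl := h.y_same' hs hb.mem_left
      have h2 : iota x ∈ Cs iota A := by
        rcases h.bf_right hs hb with h3 | h3
        · rw [← h3]; exact hz
        · exact hC.down _ _ z hz ((h.ord h.ne.symm hzy).1 h3)
      exact hC.same _ x hx h.hx.mem hs h2
    · exact ⟨hC.down d t z hz ((h.ord h1 hzy).1 hb), h1⟩
  · rintro d z ⟨hz, hzy⟩ h1 h2
    by_cases h3 : iota z = y
    · exfalso
      rw [h3] at h2
      obtain rfl := (h.y_same' hs h2).symm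
      have h4 : z ∈ wd d A := (h.side hzy).1 h1
      have h5 : y ∈ wd d A := by simpa using h.hy.mem
      refine hC.same d z hz h4 (by rw [h3]; exact h5) ?_
      rw [h3]; exact hyC
    · exact ⟨hC.mix d z hz ((h.side hzy).1 h1) ((h.side h3).1 h2), h3⟩
  · rintro d z ⟨hz, hzy⟩ h1 h2 ⟨h3, h4⟩
    exact hC.same d z hz ((h.side hzy).1 h1) ((h.side h4).1 h2) h3

/-- A same-side win, second part. -/
theorem Mv.cs_same' (h : Mv iota c x y A A') (hf : Fr iota A) (hs : iota x ∈ wd c A)
    (hy : y ∉ Cs iota A') (ht : t ∈ Cs iota A') : t ∈ Cs iota A := by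
  have hC := cs_cset h.ok
  have hC' := cs_cset h.ok'
  have hyC := hf.hd h.ok h.hy
  have hyc := h.y_same hs
  -- the partner of `y`
  have key : ∀ z, z ∈ Cs iota A' → z ∈ wd (!c) A → z ≠ y → iota z ≠ y := by
    intro z hz h1 h2 h3
    refine hy ?_
    rw [← h3]
    exact hC'.mix (!c) z hz ((h.side h2).2 h1) (by rw [h3]; simpa using hyc)
  refine CSet.sub (K := {t | t ∈ Cs iota A' ∨ t = y}) ⟨?_, ?_, ?_⟩ (Or.inl ht)
  · rintro d t z hz hb
    by_cases h1 : t = y
    · exact Or.inr h1
    by_cases h2 : z = y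
    · exfalso
      subst h2
      obtain rfl := ok_side h.ok hb.mem_right h.hy.mem
      exact h.hy.not_bf h.ok hb
    · left
      exact hC'.down d t z (hz.resolve_right h2) ((h.ord h1 h2).2 hb)
  · rintro d z hz h1 h2
    by_cases h3 : iota z = y
    · exact Or.inr h3
    left
    by_cases h4 : z = y
    · subst h4
      exact h.cs_same hf hs (hC.mix d z hyC h1 h2) h3
    · exact hC'.mix d z (hz.resolve_right h4) ((h.side h4).2 h1) ((h.side h3).2 h2)
  · rintro d z hz h1 h2 h3
    have hne := ok_ne h.ok h1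
    by_cases h4 : z = y
    · subst h4
      obtain rfl := ok_side h.ok h1 h.hy.mem
      have h5 := h3.resolve_right hne
      refine key (iota z) h5 h2 hne ?_
      rw [ok_inv h.ok h1]
    · have hz' := hz.resolve_right h4
      by_cases h5 : iota z = y
      · have h6 : d = !c := ok_side h.ok h2 (by rw [h5]; exact h.hy.mem)
        subst h6
        exact key z hz' h1 h4 h5
      · exact hC'.same d z hz' ((h.side h4).2 h1) ((h.side h5).2 h2) (h3.resolve_right h5)

/-- A mixed win. -/
theorem Mv.cs_mix (h : Mv iota c x y A A') (hf : Fr iota A) (hs : iota x ∈ wd (!c) A) :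
    t ∈ Cs iota A' ↔ t ∈ Cs iota A := by
  have hC := cs_cset h.ok
  have hC' := cs_cset h.ok'
  have hx := hf.hd h.ok h.hx
  have hyC := hf.hd h.ok h.hy
  have hix : iota x ∈ Cs iota A := hC.mix c x hx h.hx.mem hs
  have h1 : ∀ t, t ∈ Cs iota A → t ∈ Cs iota A' := by
    intro t ht
    refine CSet.sub (K := Cs iota A) ⟨?_, ?_, ?_⟩ ht
    · intro d t z hz hb
      by_cases h1 : t = y
      · rw [h1]; exact hyC
      by_cases h2 : z = y
      · subst h2
        obtain rfl := ok_side h.ok' hb.mem_right (h.y_mix hs)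
        have h3 := hb.trans h.ok' (h.bf hs)
        exact hC.down _ t _ hix ((h.ord h1 h.ne.symm).1 h3)
      · exact hC.down d t z hz ((h.ord h1 h2).1 hb)
    · intro d z hz h2 h3
      exact hC.mix d z hz ((h.side_mix hs).1 h2) ((h.side_mix hs).1 h3)
    · intro d z hz h2 h3
      exact hC.same d z hz ((h.side_mix hs).1 h2) ((h.side_mix hs).1 h3)
  refine ⟨fun ht => ?_, h1 t⟩
  refine CSet.sub (K := Cs iota A') ⟨?_, ?_, ?_⟩ ht
  · intro d t z hz hb
    by_cases h2 : t = y
    · rw [h2]; exact h1 y hyC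
    by_cases h3 : z = y
    · exfalso
      subst h3
      obtain rfl := ok_side h.ok hb.mem_right h.hy.mem
      exact h.hy.not_bf h.ok hb
    · exact hC'.down d t z hz ((h.ord h2 h3).2 hb)
  · intro d z hz h2 h3
    exact hC'.mix d z hz ((h.side_mix hs).2 h2) ((h.side_mix hs).2 h3)
  · intro d z hz h2 h3
    exact hC'.same d z hz ((h.side_mix hs).2 h2) ((h.side_mix hs).2 h3)

/-- In a jump the loser is a same-side token, its partner belongs to the new set. -/
theorem Mv.jump_y (h : Mv iota c x y A A') (hf : Fr iota A) (hs : iota x ∈ wd c A)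
    (hj : y ∈ Cs iota A') :
    iota y ∈ wd (!c) A ∧ iota y ∈ wd (!c) A' ∧ iota y ∈ Cs iota A' := by
  have hC := cs_cset h.ok
  have hC' := cs_cset h.ok'
  have hyC := hf.hd h.ok h.hy
  have hne := ok_ne h.ok h.hy.mem
  have h1 : iota y ∈ wd (!c) A := by
    rcases ok_mem h.ok c h.hy.mem with h2 | h2
    · exfalso
      have h3 : iota y ∈ Cs iota A := hC.mix (!c) y hyC h.hy.mem (by simpa using h2)
      have h4 := h.cs_same hf hs h3 hne
      exact hC'.same c y hj (h.y_same hs) ((h.side hne).2 h2) h4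
    · exact h2
  have h2 := (h.side hne).2 h1
  exact ⟨h1, h2, hC'.mix c y hj (h.y_same hs) h2⟩

/-- In a jump everything before the partners of the two first tokens belongs to the new set. -/
theorem Mv.jump_bf (h : Mv iota c x y A A') (hf : Fr iota A) (hs : iota x ∈ wd c A)
    (hj : y ∈ Cs iota A') (hb : Bf d A' t (iota x) ∨ Bf d A' t (iota y)) : t ∈ Cs iota A' := by
  have hC' := cs_cset h.ok'
  rcases hb with hb | hb
  · have h1 : iota x ∈ wd d A := (h.side h.ne.symm).1 hb.mem_right
    obtain rfl := ok_side h.ok h1 hs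
    rcases h.bf_left h1 hb with h2 | h2
    · rw [h2]; exact hj
    · exact hC'.down _ t y hj h2
  · exact hC'.down d t _ (h.jump_y hf hs hj).2.2 hb

end Pool.Agent.QuadEq.Free
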