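import Pool.Agent.Lib.MP_b7851d_lc.Free.Step

/-!
# Free paths, path form
-/

namespace Pool.Agent.QuadEq.Free

open Pool.Agent.QuadEq.Star

set_option linter.unusedSectionVars false

variable {α : Type*} [DecidableEq α] {iota : α → α} {A B : List α × List α}

/-- A path as a sequence. -/
theorem seq_of_rtg {R : List α × List α → Prop}
    (h : Relation.ReflTransGen (fun X Y => (∃ b, stepW iota b X = some Y) ∧ R Y) A B) (hA : R A) :
    ∃ (N : ℕ) (s : ℕ → List α × List α) (b : ℕ → Bool), s 0 = A ∧ s N = B ∧
      (∀ i < N, stepW iota (b i) (s i) = some (s (i + 1))) ∧ ∀ i ≤ N, R (s i) := by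
  classical
  induction h with
  | refl => exact ⟨0, fun _ => A, fun _ => true, rfl, rfl, fun i hi => absurd hi (by omega), fun _ _ => hA⟩
  | @tail X Y _ hXY ih =>
    obtain ⟨N, s, b, h1, h2, h3, h4⟩ := ih
    obtain ⟨⟨c, hc⟩, hY⟩ := hXY
    refine ⟨N + 1, fun i => if i ≤ N then s i else Y, fun i => if i < N then b i else c, ?_, ?_, ?_, ?_⟩
    · simp [h1]
    · simp
    · intro i hi
      rcases Nat.lt_succ_iff_lt_or_eq.1 hi with h5 | h5
      · have e1 : i ≤ N := h5.le
        have e2 : i + 1 ≤ N := h5
        simp only [if_pos e1, if_pos e2, if_pos h5]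
        exact h3 i h5
      · subst h5
        have e2 : ¬ i + 1 ≤ i := by omega
        simp only [le_refl, if_true, lt_irrefl, if_false, if_neg e2]
        rw [h2]
        exact hc
    · intro i hi
      by_cases h5 : i ≤ N
      · simp only [if_pos h5]
        exact h4 i h5
      · simp only [if_neg h5]
        exact hY

open Classical in
/-- The number of same-side wins before the index. -/
noncomputable def cnt (iota : α → α) (s : ℕ → List α × List α) (b : ℕ → Bool) : ℕ → ℕ
  | 0 => 0
  | i + 1 => cnt iota s b i + if Same iota (b i) (s i) then 1 else 0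

theorem cnt_path {s : ℕ → List α × List α} {b : ℕ → Bool} {N : ℕ}
    (hs : ∀ i < N, stepW iota (b i) (s i) = some (s (i + 1))) :
    ∀ i ≤ N, PathW iota (cnt iota s b i) (s 0) (s i) := by
  classical
  intro i
  induction i with
  | zero => intro _; exact PathW.refl _ _
  | succ i ih =>
    intro hi
    have h1 := ih (by omega)
    rw [cnt]
    refine h1.trans ?_
    by_cases h2 : Same iota (b i) (s i)
    · rw [if_pos h2]
      exact PathW.win (b i) (hs i (by omega)) (PathW.refl 0 _)
    · rw [if_neg h2]
      exact PathW.step (b i) (hs i (by omega)) h2 (PathW.refl 0 _)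

/-- **The gap lemma.** A path of free states gives a path with few same-side wins. -/
theorem gap {T : ℕ} (hA : OkW iota A) (hfA : Fr iota A) (hT : A.1.length + A.2.length ≤ T)
    (h : Relation.ReflTransGen (fun X Y => (∃ b, stepW iota b X = some Y) ∧ Fr iota Y) A B) :
    PathW iota (T * (T + 1) + T) A B := by
  classical
  obtain ⟨N, s, b, rfl, rfl, h3, h4⟩ := seq_of_rtg h hfA
  have h5 := cnt_path h3 N le_rfl
  refine h5.mono (free_count hA h3 (fun i hi => h4 i hi.le) (cnt iota s b) rfl ?_ hT)
  intro i hi
  constructor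
  · intro h6
    rw [cnt, if_pos h6]
  · intro h6
    rw [cnt, if_neg h6, Nat.add_zero]

/-- An explicit pair. -/
theorem fr_of_pair (h : OkW iota A) {P P₂ Q Q₂ : List α} (h1 : A = (P ++ P₂, Q ++ Q₂)) (hP : P ≠ [])
    (hQ : Q ≠ []) (h2 : ∀ z ∈ P, iota z ∉ P) (h3 : ∀ z ∈ Q, iota z ∉ Q)
    (h4 : ∀ z ∈ P, iota z ∈ A.2 → iota z ∈ Q) (h5 : ∀ z ∈ Q, iota z ∈ A.1 → iota z ∈ P) :
    Fr iota A := by
  subst h1
  have hn1 := (List.nodup_append.mp h.nd).1
  have hn2 := (List.nodup_append.mp h.nd).2.1
  have hd := (List.nodup_append.mp h.nd).2.2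
  simp only at hn1 hn2 hd h4 h5
  -- initial segments
  have key : ∀ (l₁ l₂ : List α), (l₁ ++ l₂).Nodup → ∀ t z, z ∈ l₁ → [t, z].Sublist (l₁ ++ l₂) → t ∈ l₁ := by
    intro l₁ l₂ hn t z hz hs
    rw [sub_iff hn] at hs
    have h6 : (l₁ ++ l₂).idxOf z < l₁.length := by
      rw [List.idxOf_append_of_mem hz]
      exact List.idxOf_lt_length_iff.2 hz
    by_contra h7
    rw [List.idxOf_append_of_notMem h7] at hs
    omega
  have hK : CSet iota (P ++ P₂, Q ++ Q₂) {t | t ∈ P ∨ t ∈ Q} := by
    refine ⟨?_, ?_, ?_⟩
    · rintro d t z hz hb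
      cases d
      · have h6 : z ∈ Q := by
          rcases hz with h6 | h6
          · exact absurd rfl (hd z (List.mem_append_left _ h6) z hb.mem_right)
          · exact h6
        exact Or.inr (key Q Q₂ hn2 t z h6 hb)
      · have h6 : z ∈ P := by
          rcases hz with h6 | h6
          · exact h6
          · exact absurd rfl (hd z hb.mem_right z (List.mem_append_left _ h6))
        exact Or.inl (key P P₂ hn1 t z h6 hb)
    · rintro d z hz h6 h7
      cases d
      · have h8 : z ∈ Q := by
          rcases hz with h8 | h8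
          · exact absurd rfl (hd z (List.mem_append_left _ h8) z h6)
          · exact h8
        exact Or.inl (h5 z h8 h7)
      · have h8 : z ∈ P := by
          rcases hz with h8 | h8
          · exact h8
          · exact absurd rfl (hd z h6 z (List.mem_append_left _ h8))
        exact Or.inr (h4 z h8 h7)
    · rintro d z hz h6 h7 h8
      cases d
      · have h9 : z ∈ Q := by
          rcases hz with h9 | h9
          · exact absurd rfl (hd z (List.mem_append_left _ h9) z h6)
          · exact h9
        have h10 : iota z ∈ Q := by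
          rcases h8 with h10 | h10
          · exact absurd rfl (hd _ (List.mem_append_left _ h10) _ h7)
          · exact h10
        exact h3 z h9 h10
      · have h9 : z ∈ P := by
          rcases hz with h9 | h9
          · exact h9
          · exact absurd rfl (hd z h6 z (List.mem_append_left _ h9))
        have h10 : iota z ∈ P := by
          rcases h8 with h10 | h10
          · exact h10
          · exact absurd rfl (hd _ h7 _ (List.mem_append_left _ h10))
        exact h2 z h9 h10
  intro d
  cases d
  · obtain ⟨z, Q', rfl⟩ := List.exists_cons_of_ne_nil hQ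
    exact ⟨z, by simp, hK.sub (Or.inr (by simp))⟩
  · obtain ⟨z, P', rfl⟩ := List.exists_cons_of_ne_nil hP
    exact ⟨z, by simp, hK.sub (Or.inl (by simp))⟩

end Pool.Agent.QuadEq.Free
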