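import Pool.Agent.Lib.MP_b7851d_lc.Free.Gap

/-!
# States which are not free
-/

namespace Pool.Agent.QuadEq.Free

open Pool.Agent.QuadEq.Star

set_option linter.unusedSectionVars false

variable {α : Type*} [DecidableEq α] {iota : α → α} {A B C : List α × List α}

/-- Joined by mixed wins in both directions. -/
def MC (iota : α → α) (A B : List α × List α) : Prop := PathW iota 0 A B ∧ PathW iota 0 B A

theorem MC.refl (A : List α × List α) : MC iota A A := ⟨PathW.refl _ _, PathW.refl _ _⟩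

theorem MC.symm (h : MC iota A B) : MC iota B A := ⟨h.2, h.1⟩

theorem MC.trans (h : MC iota A B) (h' : MC iota B C) : MC iota A C :=
  ⟨h.1.trans h'.1, h'.2.trans h.2⟩

theorem MC.swap (h : MC iota A B) : MC iota A.swap B.swap := ⟨h.1.swap, h.2.swap⟩

/-- The first token `p` of the top word is a top token, the first token `w` of the bottom word is
mixed, and both copies of `p` stand before the partner of `w`. -/
def PP0 (iota : α → α) (A : List α × List α) : Prop :=
  ∃ p w U₁ U₂ U₃ V, A = (p :: (U₁ ++ iota p :: (U₂ ++ iota w :: U₃)), w :: V)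

/-- The result of rotating by one token. -/
theorem rot1 {u z : α} {U Z V : List α} (h : OkW iota (u :: U, z :: (Z ++ iota u :: V))) :
    PathW iota 0 (u :: U, z :: (Z ++ iota u :: V)) (u :: U, Z ++ z :: iota u :: V) := by
  have hnd := h.nd
  rw [List.cons_append, List.nodup_cons, List.mem_append, List.mem_cons, List.nodup_append,
    List.nodup_cons] at hnd
  obtain ⟨hx, hP, ⟨hy, hQ⟩, hPQ⟩ := hnd
  have h1 : z ≠ iota u := by
    rintro rfl
    exact hy (by simp)
  have h2 : iota u ∉ U := fun h' => hPQ _ h' (iota u) (by simp) rfl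
  have h3 : iota u ∉ Z := by
    rw [List.nodup_append] at hQ
    exact fun h' => hQ.2.2 _ h' (iota u) (by simp) rfl
  refine PathW.step true (A' := (u :: U, Z ++ z :: iota u :: V)) ?_ ?_ (PathW.refl _ _)
  · have h4 : ¬ (z = iota u ∨ Z ++ iota u :: V = []) := by
      rintro (h5 | h5)
      · exact h1 h5
      · simp at h5
    simp only [stepW, cond_true, tW, if_neg h4]
    rw [insB_notMem h2, insB_split h3]
  · rintro ⟨x, P, Q, h5, h6⟩
    simp only [cond_true, Prod.mk.injEq, List.cons.injEq] at h5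
    obtain ⟨⟨rfl, rfl⟩, rfl⟩ := h5
    exact h2 h6

/-- Rotations. -/
theorem rot {u : α} {U Z₁ V : List α} : ∀ (Z₂ : List α),
    OkW iota (u :: U, Z₂ ++ (Z₁ ++ iota u :: V)) →
    PathW iota 0 (u :: U, Z₂ ++ (Z₁ ++ iota u :: V)) (u :: U, Z₁ ++ (Z₂ ++ iota u :: V)) := by
  intro Z₂
  induction Z₂ generalizing Z₁ with
  | nil => intro _; exact PathW.refl _ _
  | cons z Z₂ ih =>
    intro h
    have h1 : OkW iota (u :: U, z :: ((Z₂ ++ Z₁) ++ iota u :: V)) := by simpa using h
    have h2 := rot1 h1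
    have h3 : OkW iota (u :: U, Z₂ ++ ((Z₁ ++ [z]) ++ iota u :: V)) := by
      refine h.of_perm ?_
      refine List.Perm.append_left (u :: U) ?_
      have : List.Perm (Z₂ ++ (Z₁ ++ ([z] ++ iota u :: V))) (z :: (Z₂ ++ (Z₁ ++ iota u :: V))) := by
        rw [← List.append_assoc, ← List.append_assoc Z₂ Z₁]
        exact List.perm_middle
      simpa using this
    have h4 := ih h3
    have e1 : z :: (Z₂ ++ (Z₁ ++ iota u :: V)) = z :: ((Z₂ ++ Z₁) ++ iota u :: V) := by simp
    have e2 : Z₂ ++ ((Z₁ ++ [z]) ++ iota u :: V) = (Z₂ ++ Z₁) ++ z :: iota u :: V := by simp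
    have e3 : (Z₁ ++ [z]) ++ (Z₂ ++ iota u :: V) = Z₁ ++ (z :: Z₂ ++ iota u :: V) := by simp
    rw [e2, e3] at h4
    have h5 := h2.trans h4
    rw [List.cons_append, e1]
    exact h5

theorem ok_rot {u : α} {U Z₁ Z₂ V : List α} (h : OkW iota (u :: U, Z₁ ++ (Z₂ ++ iota u :: V))) :
    OkW iota (u :: U, Z₂ ++ (Z₁ ++ iota u :: V)) := by
  refine h.of_perm ?_
  refine List.Perm.append_left (u :: U) ?_
  rw [← List.append_assoc, ← List.append_assoc]
  exact List.Perm.append_right _ List.perm_append_comm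

theorem mc_rot {u : α} {U Z₁ Z₂ V : List α} (h : OkW iota (u :: U, Z₁ ++ (Z₂ ++ iota u :: V))) :
    MC iota (u :: U, Z₁ ++ (Z₂ ++ iota u :: V)) (u :: U, Z₂ ++ (Z₁ ++ iota u :: V)) :=
  ⟨rot Z₁ h, rot Z₂ (ok_rot h)⟩

theorem mc_rot' {v : α} {V Z₁ Z₂ U : List α} (h : OkW iota (Z₁ ++ (Z₂ ++ iota v :: U), v :: V)) :
    MC iota (Z₁ ++ (Z₂ ++ iota v :: U), v :: V) (Z₂ ++ (Z₁ ++ iota v :: U), v :: V) := by
  have := (mc_rot h.swap).swap
  simpa using this

/-- Mixed wins preserve freeness. -/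
theorem fr_path (h : PathW iota 0 A B) (hA : OkW iota A) (hf : Fr iota A) :
    OkW iota B ∧ Fr iota B := by
  generalize hk : (0 : ℕ) = k at h
  induction h with
  | refl k A => exact ⟨hA, hf⟩
  | @step k A A' B b h hs hp ih =>
    obtain ⟨x, y, hv⟩ := mv_step hA h
    have h1 : iota x ∈ wd (!b) A := by
      rcases ok_mem hA b hv.hx.mem with h2 | h2
      · exact absurd (hv.same_iff.2 h2) hs
      · exact h2
    refine ih hv.ok' ?_ hk
    intro d
    obtain ⟨t, ht1, ht2⟩ := hf d
    exact ⟨t, (hv.side_mix h1).2 ht1, (hv.cs_mix hf h1).2 ht2⟩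
  | win b h hp ih => exact absurd hk (by omega)

/-- A pair in a word, in its order. -/
theorem pair_split {l : List α} (hi : ∀ s ∈ l, iota (iota s) = s) (hn : ∀ s ∈ l, iota s ≠ s)
    (h : ∃ s ∈ l, iota s ∈ l) : ∃ s l₁ l₂ l₃, l = l₁ ++ s :: (l₂ ++ iota s :: l₃) := by
  obtain ⟨s, h1, h2⟩ := h
  obtain ⟨l₁, l₂, rfl⟩ := List.append_of_mem h1
  rw [List.mem_append, List.mem_cons] at h2
  rcases h2 with h2 | h2 | h2
  · obtain ⟨l₃, l₄, rfl⟩ := List.append_of_mem h2
    refine ⟨iota s, l₃, l₄, l₂, ?_⟩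
    rw [hi s h1]
    simp
  · exact absurd h2 (hn s h1)
  · obtain ⟨l₃, l₄, rfl⟩ := List.append_of_mem h2
    exact ⟨s, l₁, l₃, l₄, rfl⟩

/-- The goal. -/
def HP (iota : α → α) (A : List α × List α) : Prop :=
  Fr iota A ∨ ∃ A', MC iota A A' ∧ (PP0 iota A' ∨ PP0 iota A'.swap)

theorem HP.of_mc (h : MC iota A B) (hB : OkW iota B) (hp : HP iota B) : HP iota A := by
  rcases hp with h1 | ⟨A', h1, h2⟩
  · exact Or.inl (fr_path h.2 hB h1).2
  · exact Or.inr ⟨A', h.trans h1, h2⟩

theorem fr_swap (hA : OkW iota A) (h : Fr iota A) : Fr iota A.swap := by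
  have hC := cs_cset hA
  intro d
  obtain ⟨t, ht1, ht2⟩ := h (!d)
  refine ⟨t, by rw [wd_swap]; exact ht1, ?_⟩
  refine CSet.sub (K := Cs iota A) ⟨?_, ?_, ?_⟩ ht2
  · intro d t z hz hb
    unfold Bf at hb
    rw [wd_swap] at hb
    exact hC.down _ t z hz hb
  · intro d z hz h1 h2
    rw [wd_swap] at h1 h2
    exact hC.mix _ z hz h1 h2
  · intro d z hz h1 h2
    rw [wd_swap] at h1 h2
    exact hC.same _ z hz h1 h2

theorem HP.swap (hA : OkW iota A) (h : HP iota A) : HP iota A.swap := by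
  rcases h with h1 | ⟨A', h1, h2⟩
  · exact Or.inl (fr_swap hA h1)
  · exact Or.inr ⟨A'.swap, h1.swap, by rw [Prod.swap_swap]; exact h2.symm⟩

/-- Both first tokens are mixed. -/
theorem hub_mm (k : ℕ) : ∀ (u w : α) (P U₂ Q V₂ : List α), U₂.length + V₂.length = k →
    OkW iota (u :: (P ++ iota w :: U₂), w :: (Q ++ iota u :: V₂)) →
      HP iota (u :: (P ++ iota w :: U₂), w :: (Q ++ iota u :: V₂)) := by
  induction k using Nat.strong_induction_on with
  | _ k ih =>
    intro u w P U₂ Q V₂ hk h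
    have hi : ∀ z, z ∈ u :: (P ++ iota w :: U₂) ∨ z ∈ w :: (Q ++ iota u :: V₂) → iota (iota z) = z :=
      fun z hz => h.inv z (List.mem_append.2 hz)
    have hn : ∀ z, z ∈ u :: (P ++ iota w :: U₂) ∨ z ∈ w :: (Q ++ iota u :: V₂) → iota z ≠ z :=
      fun z hz => h.ne z (List.mem_append.2 hz)
    have hm : ∀ z, z ∈ u :: (P ++ iota w :: U₂) ∨ z ∈ w :: (Q ++ iota u :: V₂) →
        iota z ∈ u :: (P ++ iota w :: U₂) ∨ iota z ∈ w :: (Q ++ iota u :: V₂) :=
      fun z hz => List.mem_append.1 (h.mem z (List.mem_append.2 hz))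
    have hnd := h.nd
    by_cases c1 : ∃ z ∈ P, iota z ∈ P
    · right
      obtain ⟨p, l₁, l₂, l₃, rfl⟩ := pair_split (fun z hz => hi z (by simp [hz]))
        (fun z hz => hn z (by simp [hz])) c1
      refine ⟨(p :: (l₂ ++ iota p :: (l₃ ++ u :: l₁ ++ iota w :: U₂)), w :: (Q ++ iota u :: V₂)), ?_,
        Or.inl ⟨p, w, l₂, l₃ ++ u :: l₁, U₂, Q ++ iota u :: V₂, by simp⟩⟩
      have h1 : OkW iota ((u :: l₁) ++ ((p :: (l₂ ++ iota p :: l₃)) ++ iota w :: U₂),
          w :: (Q ++ iota u :: V₂)) := by simpa using h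
      have h2 := mc_rot' h1
      simpa using h2
    by_cases c2 : ∃ z ∈ Q, iota z ∈ Q
    · right
      obtain ⟨p, l₁, l₂, l₃, rfl⟩ := pair_split (fun z hz => hi z (by simp [hz]))
        (fun z hz => hn z (by simp [hz])) c2
      refine ⟨(u :: (P ++ iota w :: U₂), p :: (l₂ ++ iota p :: (l₃ ++ w :: l₁ ++ iota u :: V₂))), ?_,
        Or.inr ⟨p, u, l₂, l₃ ++ w :: l₁, V₂, P ++ iota w :: U₂, by simp⟩⟩
      have h1 : OkW iota (u :: (P ++ iota w :: U₂),
          (w :: l₁) ++ ((p :: (l₂ ++ iota p :: l₃)) ++ iota u :: V₂)) := by simpa using h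
      have h2 := mc_rot h1
      simpa using h2
    by_cases c3 : ∃ z ∈ P, iota z ∈ V₂
    · obtain ⟨z, hz, hz'⟩ := c3
      obtain ⟨l₁, l₂, rfl⟩ := List.append_of_mem hz
      obtain ⟨V₃, V₄, rfl⟩ := List.append_of_mem hz'
      have h1 : OkW iota ((u :: l₁) ++ ((z :: l₂) ++ iota w :: U₂),
          w :: (Q ++ iota u :: (V₃ ++ iota z :: V₄))) := by simpa using h
      have h2 := mc_rot' h1
      have h3 := ok_rot h1.swap
      have h4 : OkW iota (z :: ((l₂ ++ u :: l₁) ++ iota w :: U₂),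
          w :: ((Q ++ iota u :: V₃) ++ iota z :: V₄)) := by
        have := h3.swap
        simpa using this
      have h5 := ih (U₂.length + V₄.length) (by
        rw [← hk]
        simp only [List.length_append, List.length_cons]
        omega) z w (l₂ ++ u :: l₁) U₂ (Q ++ iota u :: V₃) V₄ rfl h4
      refine HP.of_mc ?_ h4 h5
      simpa using h2
    by_cases c4 : ∃ z ∈ Q, iota z ∈ U₂
    · obtain ⟨z, hz, hz'⟩ := c4
      obtain ⟨l₁, l₂, rfl⟩ := List.append_of_mem hz
      obtain ⟨U₃, U₄, rfl⟩ := List.append_of_mem hz'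
      have h1 : OkW iota (u :: (P ++ iota w :: (U₃ ++ iota z :: U₄)),
          (w :: l₁) ++ ((z :: l₂) ++ iota u :: V₂)) := by simpa using h
      have h2 := mc_rot h1
      have h3 := ok_rot h1
      have h4 : OkW iota (u :: ((P ++ iota w :: U₃) ++ iota z :: U₄),
          z :: ((l₂ ++ w :: l₁) ++ iota u :: V₂)) := by simpa using h3
      have h5 := ih (U₄.length + V₂.length) (by
        rw [← hk]
        simp only [List.length_append, List.length_cons]
        omega) u z (P ++ iota w :: U₃) U₄ (l₂ ++ w :: l₁) V₂ rfl h4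
      refine HP.of_mc ?_ h4 h5
      simpa using h2
    left
    refine fr_of_pair (P := u :: (P ++ [iota w])) (P₂ := U₂) (Q := w :: (Q ++ [iota u])) (Q₂ := V₂) h
      (by simp) (by simp) (by simp) ?_ ?_ ?_ ?_
    all_goals
      intro z hz
      have h1 := hi z
      have h2 := hn z
      have h3 := hm z
      have h4 := hi u
      have h5 := hi w
      have h6 := hn u
      have h7 := hn w
      simp only [List.nodup_append, List.nodup_cons, List.mem_append, List.mem_cons, List.cons_append,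
        List.append_assoc, not_or, not_exists, not_and, List.not_mem_nil, or_false] at hz h1 h2 h3 h4 h5 h6 h7 hnd c1 c2 c3 c4 ⊢
      grind

/-- The first token of the top word is mixed. -/
theorem hub_m {u v : α} {U B V₂ : List α} (h : OkW iota (u :: U, v :: (B ++ iota u :: V₂))) :
    HP iota (u :: U, v :: (B ++ iota u :: V₂)) := by
  have hi : ∀ z, z ∈ u :: U ∨ z ∈ v :: (B ++ iota u :: V₂) → iota (iota z) = z :=
    fun z hz => h.inv z (List.mem_append.2 hz)
  have hn : ∀ z, z ∈ u :: U ∨ z ∈ v :: (B ++ iota u :: V₂) → iota z ≠ z :=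
    fun z hz => h.ne z (List.mem_append.2 hz)
  have hm : ∀ z, z ∈ u :: U ∨ z ∈ v :: (B ++ iota u :: V₂) →
      iota z ∈ u :: U ∨ iota z ∈ v :: (B ++ iota u :: V₂) :=
    fun z hz => List.mem_append.1 (h.mem z (List.mem_append.2 hz))
  have hnd := h.nd
  by_cases c1 : ∃ w ∈ v :: B, iota w ∈ U
  · obtain ⟨w, hw, hw'⟩ := c1
    obtain ⟨l₁, l₂, h1⟩ := List.append_of_mem hw
    obtain ⟨P, U₂, rfl⟩ := List.append_of_mem hw'
    have e : v :: (B ++ iota u :: V₂) = l₁ ++ ((w :: l₂) ++ iota u :: V₂) := by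
      rw [← List.cons_append, h1]
      simp
    rw [e] at h ⊢
    have h2 := mc_rot h
    have h3 := ok_rot h
    have h4 : OkW iota (u :: (P ++ iota w :: U₂), w :: ((l₂ ++ l₁) ++ iota u :: V₂)) := by
      simpa using h3
    have h5 := hub_mm _ u w P U₂ (l₂ ++ l₁) V₂ rfl h4
    refine HP.of_mc ?_ h4 h5
    simpa using h2
  by_cases c2 : ∃ z ∈ v :: B, iota z ∈ v :: B
  · right
    obtain ⟨p, l₁, l₂, l₃, h1⟩ := pair_split (l := v :: B) (fun z hz => hi z (by
      rw [List.mem_cons] at hz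
      simp only [List.mem_cons, List.mem_append]
      tauto)) (fun z hz => hn z (by
      rw [List.mem_cons] at hz
      simp only [List.mem_cons, List.mem_append]
      tauto)) c2
    have e : v :: (B ++ iota u :: V₂) = l₁ ++ ((p :: (l₂ ++ iota p :: l₃)) ++ iota u :: V₂) := by
      rw [← List.cons_append, h1]
      simp
    rw [e] at h ⊢
    have h2 := mc_rot h
    refine ⟨(u :: U, p :: (l₂ ++ iota p :: (l₃ ++ l₁ ++ iota u :: V₂))), ?_,
      Or.inr ⟨p, u, l₂, l₃ ++ l₁, V₂, U, by simp⟩⟩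
    simpa using h2
  left
  refine fr_of_pair (P := [u]) (P₂ := U) (Q := v :: (B ++ [iota u])) (Q₂ := V₂) h
    (by simp) (by simp) (by simp) ?_ ?_ ?_ ?_
  all_goals
    intro z hz
    have h1 := hi z
    have h2 := hn z
    have h3 := hm z
    have h4 := hi u
    have h5 := hn u
    simp only [List.nodup_append, List.nodup_cons, List.mem_append, List.mem_cons, List.cons_append,
      List.append_assoc, not_or, not_exists, not_and, List.not_mem_nil, or_false, false_or] at hz h1 h2 h3 h4 h5 hnd c1 c2 ⊢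
    grind

/-- **Hubs.** A state is free, or it is joined by mixed wins (in both directions) with a state in
which the first token of one word is a same-side token, the first token of the other word is mixed,
and the pair of the former stands before the partner of the latter. -/
theorem hub (hA : OkW iota A) (h1 : A.1 ≠ []) (h2 : A.2 ≠ []) : HP iota A := by
  obtain ⟨U, V⟩ := A
  obtain ⟨u, U, rfl⟩ := List.exists_cons_of_ne_nil h1
  obtain ⟨v, V, rfl⟩ := List.exists_cons_of_ne_nil h2
  have hi : ∀ z, z ∈ u :: U ∨ z ∈ v :: V → iota (iota z) = z :=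
    fun z hz => hA.inv z (List.mem_append.2 hz)
  have hn : ∀ z, z ∈ u :: U ∨ z ∈ v :: V → iota z ≠ z :=
    fun z hz => hA.ne z (List.mem_append.2 hz)
  by_cases c0 : v = iota u
  · left
    refine fr_of_pair (P := [u]) (P₂ := U) (Q := [v]) (Q₂ := V) hA (by simp) (by simp) (by simp)
      ?_ ?_ ?_ ?_
    all_goals
      intro z hz
      have h3 := hi z
      have h4 := hn z
      have h5 := hi u
      have h6 := hn u
      simp only [List.mem_cons, List.not_mem_nil, or_false] at hz h3 h4 h5 h6 ⊢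
      grind
  by_cases c1 : iota u ∈ V
  · obtain ⟨B, V₂, rfl⟩ := List.append_of_mem c1
    exact hub_m hA
  by_cases c2 : iota v ∈ U
  · obtain ⟨B, U₂, rfl⟩ := List.append_of_mem c2
    have := HP.swap hA.swap (hub_m (u := v) (v := u) hA.swap)
    simpa using this
  left
  have hnd := hA.nd
  refine fr_of_pair (P := [u]) (P₂ := U) (Q := [v]) (Q₂ := V) hA (by simp) (by simp) (by simp)
    ?_ ?_ ?_ ?_
  all_goals
    intro z hz
    have h3 := hi z
    have h4 := hn z
    have h5 := hi u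
    have h6 := hn u
    have h7 := hi v
    simp only [List.nodup_append, List.nodup_cons, List.mem_append, List.mem_cons, List.cons_append,
      not_or, List.not_mem_nil, or_false] at hz h3 h4 h5 h6 h7 hnd c0 c1 c2 ⊢
    grind

end Pool.Agent.QuadEq.Free
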