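import Pool.Agent.Lib.MP_b7851d_lc.Star.Wins

/-!
# Free paths: order of the tokens and one move
-/

namespace Pool.Agent.QuadEq.Free

open Pool.Agent.QuadEq.Star

set_option linter.unusedSectionVars false

variable {α : Type*} [DecidableEq α] {iota : α → α} {A A' : List α × List α}

/-! ### Words -/

/-- `[t, u]` is a subword of a word without repetition. -/
theorem sub_iff {l : List α} (hl : l.Nodup) {t u : α} :
    [t, u].Sublist l ↔ u ∈ l ∧ l.idxOf t < l.idxOf u := by
  induction l with
  | nil => simp
  | cons a l ih =>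
    rw [List.nodup_cons] at hl
    rw [List.cons_sublist_cons', ih hl.2, List.singleton_sublist]
    by_cases hu : u = a
    · subst hu
      simp only [List.idxOf_cons_self, Nat.not_lt_zero, and_false, iff_false]
      rintro (h | h)
      · exact hl.1 h.1
      · exact hl.1 h.2
    · have hau : ¬ a = u := fun e => hu e.symm
      rw [List.idxOf_cons_ne l hau]
      by_cases ht : t = a
      · subst ht
        rw [List.idxOf_cons_self]
        simp only [List.mem_cons, hu, false_or, true_and, Nat.succ_pos, and_true]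
        constructor
        · rintro (h | h)
          · exact h.1
          · exact h
        · exact Or.inr
      · have hat : ¬ a = t := fun e => ht e.symm
        rw [List.idxOf_cons_ne l hat]
        simp only [List.mem_cons, hu, false_or, ht, false_and, or_false, Nat.succ_lt_succ_iff]

/-- The words. -/
def wd (d : Bool) (A : List α × List α) : List α := bif d then A.1 else A.2

@[simp] theorem wd_true (A : List α × List α) : wd true A = A.1 := rfl
@[simp] theorem wd_false (A : List α × List α) : wd false A = A.2 := rfl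

theorem wd_swap (d : Bool) (A : List α × List α) : wd d A.swap = wd (!d) A := by cases d <;> rfl

theorem ok_nd (h : OkW iota A) (d : Bool) : (wd d A).Nodup := by
  cases d
  · exact (List.nodup_append.mp h.nd).2.1
  · exact (List.nodup_append.mp h.nd).1

theorem ok_dj (h : OkW iota A) {d : Bool} {t : α} (h1 : t ∈ wd d A) (h2 : t ∈ wd (!d) A) : False := by
  cases d
  · exact (List.nodup_append.mp h.nd).2.2 t h2 t h1 rfl
  · exact (List.nodup_append.mp h.nd).2.2 t h1 t h2 rfl

theorem ok_side (h : OkW iota A) {d d' : Bool} {t : α} (h1 : t ∈ wd d A) (h2 : t ∈ wd d' A) : d = d' := by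
  by_contra hne
  have : d' = !d := by cases d <;> cases d' <;> simp_all
  exact ok_dj h h1 (this ▸ h2)

theorem mem_app {A : List α × List α} {t : α} : t ∈ A.1 ++ A.2 ↔ ∃ d, t ∈ wd d A := by
  rw [List.mem_append]
  constructor
  · rintro (h | h)
    · exact ⟨true, h⟩
    · exact ⟨false, h⟩
  · rintro ⟨d, h⟩
    cases d
    · exact Or.inr h
    · exact Or.inl h

theorem ok_inv (h : OkW iota A) {d : Bool} {t : α} (h1 : t ∈ wd d A) : iota (iota t) = t :=
  h.inv t (mem_app.2 ⟨d, h1⟩)

theorem ok_ne (h : OkW iota A) {d : Bool} {t : α} (h1 : t ∈ wd d A) : iota t ≠ t :=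
  h.ne t (mem_app.2 ⟨d, h1⟩)

/-- The partner is on one of the two sides. -/
theorem ok_mem (h : OkW iota A) {d : Bool} (d' : Bool) {t : α} (h1 : t ∈ wd d A) :
    iota t ∈ wd d' A ∨ iota t ∈ wd (!d') A := by
  obtain ⟨e, he⟩ := mem_app.1 (h.mem t (mem_app.2 ⟨d, h1⟩))
  cases d' <;> cases e <;> simp_all

/-- `t` stands before `u` in the word `d`. -/
def Bf (d : Bool) (A : List α × List α) (t u : α) : Prop := [t, u].Sublist (wd d A)

theorem Bf.mem_left {d : Bool} {A : List α × List α} {t u : α} (h : Bf d A t u) : t ∈ wd d A :=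
  h.subset (by simp)

theorem Bf.mem_right {d : Bool} {A : List α × List α} {t u : α} (h : Bf d A t u) : u ∈ wd d A :=
  h.subset (by simp)

theorem bf_iff (h : OkW iota A) {d : Bool} {t u : α} :
    Bf d A t u ↔ u ∈ wd d A ∧ (wd d A).idxOf t < (wd d A).idxOf u := sub_iff (ok_nd h d)

theorem Bf.trans (h : OkW iota A) {d : Bool} {t u v : α} (h1 : Bf d A t u) (h2 : Bf d A u v) :
    Bf d A t v := by
  rw [bf_iff h] at h1 h2 ⊢
  exact ⟨h2.1, h1.2.trans h2.2⟩

theorem Bf.irrefl (h : OkW iota A) {d : Bool} {t : α} (h1 : Bf d A t t) : False := by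
  rw [bf_iff h] at h1
  exact lt_irrefl _ h1.2

theorem Bf.asymm (h : OkW iota A) {d : Bool} {t u : α} (h1 : Bf d A t u) (h2 : Bf d A u t) : False :=
  (h1.trans h h2).irrefl h

theorem bf_total (h : OkW iota A) {d : Bool} {t u : α} (h1 : t ∈ wd d A) (h2 : u ∈ wd d A)
    (hne : t ≠ u) : Bf d A t u ∨ Bf d A u t := by
  rw [bf_iff h, bf_iff h]
  have h3 : (wd d A).idxOf t ≠ (wd d A).idxOf u := fun e => hne (List.idxOf_inj h1 |>.1 e)
  rcases lt_or_gt_of_ne h3 with h4 | h4
  · exact Or.inl ⟨h2, h4⟩
  · exact Or.inr ⟨h1, h4⟩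

/-- `x` is the first token of the word `d`. -/
def Hd (d : Bool) (A : List α × List α) (x : α) : Prop := ∃ l, wd d A = x :: l

theorem Hd.mem {d : Bool} {A : List α × List α} {x : α} (h : Hd d A x) : x ∈ wd d A := by
  obtain ⟨l, hl⟩ := h
  rw [hl]
  simp

theorem Hd.uniq {d : Bool} {A : List α × List α} {x y : α} (h : Hd d A x) (h' : Hd d A y) : x = y := by
  obtain ⟨l, hl⟩ := h
  obtain ⟨l', hl'⟩ := h'
  rw [hl] at hl'
  exact (List.cons.inj hl').1

theorem Hd.not_bf (h : OkW iota A) {d : Bool} {x t : α} (hx : Hd d A x) : ¬ Bf d A t x := by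
  obtain ⟨l, hl⟩ := hx
  rw [bf_iff h, hl, List.idxOf_cons_self]
  omega

/-! ### One move -/

/-- The move from `A` to `A'` in which `x`, the first token of the word `c`, wins against `y`. -/
structure Mv (iota : α → α) (c : Bool) (x y : α) (A A' : List α × List α) : Prop where
  /-- good states -/
  ok : OkW iota A
  /-- good states -/
  ok' : OkW iota A'
  /-- the winner -/
  hx : Hd c A x
  /-- the loser -/
  hy : Hd (!c) A y
  /-- the winner remains the first token -/
  hx' : Hd c A' x
  /-- not the partner -/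
  ne : y ≠ iota x
  /-- the other tokens do not move -/
  flt : ∀ d, (wd d A').filter (· ≠ y) = (wd d A).filter (· ≠ y)
  /-- the new place of the loser -/
  plc : ∀ d, iota x ∈ wd d A → ∃ l₁ l₂, wd d A' = l₁ ++ y :: iota x :: l₂

variable {c d : Bool} {x y t u z : α}

theorem Mv.side (h : Mv iota c x y A A') (ht : t ≠ y) : t ∈ wd d A' ↔ t ∈ wd d A := by
  have h1 : t ∈ (wd d A').filter (· ≠ y) ↔ t ∈ (wd d A).filter (· ≠ y) := by rw [h.flt d]
  simpa [ht] using h1

theorem sub_filter {l : List α} (ht : t ≠ y) (hu : u ≠ y) :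
    [t, u].Sublist l ↔ [t, u].Sublist (l.filter (· ≠ y)) := by
  constructor
  · intro h
    have := h.filter (· ≠ y)
    simpa [ht, hu] using this
  · intro h
    exact h.trans List.filter_sublist

theorem Mv.ord (h : Mv iota c x y A A') (ht : t ≠ y) (hu : u ≠ y) : Bf d A' t u ↔ Bf d A t u := by
  unfold Bf
  rw [sub_filter ht hu, h.flt d, ← sub_filter ht hu]

theorem Mv.xy (h : Mv iota c x y A A') : x ≠ y := by
  rintro rfl
  exact ok_dj h.ok h.hx.mem h.hy.mem

theorem Mv.bf (h : Mv iota c x y A A') (hd : iota x ∈ wd d A) : Bf d A' y (iota x) := by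
  obtain ⟨l₁, l₂, h1⟩ := h.plc d hd
  unfold Bf
  rw [h1]
  exact (List.Sublist.refl [y, iota x]).trans
    ((List.sublist_append_left [y, iota x] l₂).trans (List.sublist_append_right l₁ _))

/-- What stands before the partner of the winner. -/
theorem Mv.bf_left (h : Mv iota c x y A A') (hd : iota x ∈ wd d A) (ht : Bf d A' t (iota x)) :
    t = y ∨ Bf d A' t y := by
  obtain ⟨l₁, l₂, h1⟩ := h.plc d hd
  by_cases hty : t = y
  · exact Or.inl hty
  · right
    have h2 := (h.bf hd)
    rcases bf_total h.ok' ht.mem_left h2.mem_left hty with h3 | h3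
    · exact h3
    · exfalso
      have hn := ok_nd h.ok' d
      rw [h1] at hn
      rw [bf_iff h.ok'] at ht h3
      have hy1 : y ∉ l₁ := fun h' => (List.nodup_append.1 hn).2.2 y h' y (by simp) rfl
      have hx1 : iota x ∉ l₁ := fun h' => (List.nodup_append.1 hn).2.2 _ h' (iota x) (by simp) rfl
      rw [h1, List.idxOf_append_of_notMem hy1, List.idxOf_cons_self] at h3
      rw [h1, List.idxOf_append_of_notMem hx1, List.idxOf_cons_ne _ h.ne, List.idxOf_cons_self] at ht
      omega

/-- What stands behind the loser. -/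
theorem Mv.bf_right (h : Mv iota c x y A A') (hd : iota x ∈ wd d A) (ht : Bf d A' y t) :
    t = iota x ∨ Bf d A' (iota x) t := by
  obtain ⟨l₁, l₂, h1⟩ := h.plc d hd
  by_cases hty : t = iota x
  · exact Or.inl hty
  · right
    have h2 := (h.bf hd)
    rcases bf_total h.ok' ht.mem_right h2.mem_right hty with h3 | h3
    · exfalso
      have hn := ok_nd h.ok' d
      rw [h1] at hn
      rw [bf_iff h.ok'] at ht h3
      have hy1 : y ∉ l₁ := fun h' => (List.nodup_append.1 hn).2.2 y h' y (by simp) rfl
      have hx1 : iota x ∉ l₁ := fun h' => (List.nodup_append.1 hn).2.2 _ h' (iota x) (by simp) rfl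
      rw [h1, List.idxOf_append_of_notMem hy1, List.idxOf_cons_self] at ht
      rw [h1, List.idxOf_append_of_notMem hx1, List.idxOf_cons_ne _ h.ne, List.idxOf_cons_self] at h3
      omega
    · exact h3

/-- The loser goes to the side of the partner of the winner. -/
theorem Mv.side_y (h : Mv iota c x y A A') (hd : iota x ∈ wd d A) : y ∈ wd d A' := (h.bf hd).mem_left

end Pool.Agent.QuadEq.Free
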