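import Pool.Agent.Lib.MP_b7851d_lc.Free.Cs

/-!
# Free paths: the sets after two successive jumps
-/

namespace Pool.Agent.QuadEq.Free

open Pool.Agent.QuadEq.Star

set_option linter.unusedSectionVars false

variable {α : Type*} [DecidableEq α] {iota : α → α}

/-- A path of free states from the index `a` to the index `m + 1` without jumps before `m`. -/
structure Ph (iota : α → α) (s : ℕ → List α × List α) (b : ℕ → Bool) (x y : ℕ → α) (a m : ℕ) :
    Prop where
  /-- the moves -/
  mv : ∀ i, a ≤ i → i ≤ m → Mv iota (b i) (x i) (y i) (s i) (s (i + 1))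
  /-- the states are free -/
  fr : ∀ i, a ≤ i → i ≤ m → Fr iota (s i)
  /-- no jumps -/
  nj : ∀ i, a ≤ i → i < m → iota (x i) ∈ wd (b i) (s i) → y i ∉ Cs iota (s (i + 1))

variable {s : ℕ → List α × List α} {b : ℕ → Bool} {x y : ℕ → α} {a m i j : ℕ} {d : Bool} {t u : α}

theorem Ph.dich (h : Ph iota s b x y a m) (hi : a ≤ i) (hm : i ≤ m) :
    iota (x i) ∈ wd (b i) (s i) ∨ iota (x i) ∈ wd (!(b i)) (s i) :=
  ok_mem (h.mv i hi hm).ok (b i) (h.mv i hi hm).hx.mem

theorem Ph.yC (h : Ph iota s b x y a m) (hi : a ≤ i) (hm : i ≤ m) : y i ∈ Cs iota (s i) :=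
  (h.fr i hi hm).hd (h.mv i hi hm).ok (h.mv i hi hm).hy

theorem Ph.xC (h : Ph iota s b x y a m) (hi : a ≤ i) (hm : i ≤ m) : x i ∈ Cs iota (s i) :=
  (h.fr i hi hm).hd (h.mv i hi hm).ok (h.mv i hi hm).hx

theorem Ph.anti1 (h : Ph iota s b x y a m) (hi : a ≤ i) (hm : i < m)
    (ht : t ∈ Cs iota (s (i + 1))) : t ∈ Cs iota (s i) := by
  rcases h.dich hi hm.le with h1 | h1
  · exact (h.mv i hi hm.le).cs_same' (h.fr i hi hm.le) h1 (h.nj i hi hm h1) ht
  · exact ((h.mv i hi hm.le).cs_mix (h.fr i hi hm.le) h1).1 ht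

theorem Ph.anti (h : Ph iota s b x y a m) (hi : a ≤ i) (hij : i ≤ j) (hm : j ≤ m)
    (ht : t ∈ Cs iota (s j)) : t ∈ Cs iota (s i) := by
  induction j, hij using Nat.le_induction with
  | base => exact ht
  | succ j hij ih => exact ih (by omega) (h.anti1 (by omega) (by omega) ht)

/-- A token leaves the set as the loser of a same-side win. -/
theorem Ph.leave (h : Ph iota s b x y a m) (hi : a ≤ i) (hm : i ≤ m)
    (ht : t ∈ Cs iota (s i)) (ht' : t ∉ Cs iota (s (i + 1))) :
    iota (x i) ∈ wd (b i) (s i) ∧ t = y i := by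
  rcases h.dich hi hm with h1 | h1
  · refine ⟨h1, ?_⟩
    by_contra hne
    exact ht' ((h.mv i hi hm).cs_same (h.fr i hi hm) h1 ht hne)
  · exact absurd (((h.mv i hi hm).cs_mix (h.fr i hi hm) h1).2 ht) ht'

theorem Ph.side1 (h : Ph iota s b x y a m) (hi : a ≤ i) (hm : i < m)
    (ht : t ∈ Cs iota (s (i + 1))) : t ∈ wd d (s (i + 1)) ↔ t ∈ wd d (s i) := by
  rcases h.dich hi hm.le with h1 | h1
  · refine (h.mv i hi hm.le).side ?_
    rintro rfl
    exact h.nj i hi hm h1 ht
  · exact (h.mv i hi hm.le).side_mix h1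

/-- Tokens of the set stay on their side. -/
theorem Ph.side (h : Ph iota s b x y a m) (hi : a ≤ i) (hij : i ≤ j) (hm : j ≤ m)
    (ht : t ∈ Cs iota (s j)) : t ∈ wd d (s j) ↔ t ∈ wd d (s i) := by
  induction j, hij using Nat.le_induction with
  | base => exact Iff.rfl
  | succ j hij ih =>
    rw [h.side1 (by omega) (by omega) ht]
    exact ih (by omega) (h.anti1 (by omega) (by omega) ht)

theorem Ph.out_ne (h : Ph iota s b x y a m) (hj : a ≤ j) (ht : t ∉ Cs iota (s j)) (hij : j ≤ i)
    (hm : i ≤ m) : t ≠ y i := by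
  rintro rfl
  exact ht (h.anti hj hij hm (h.yC (by omega) hm))

/-- Tokens outside of the set do not move. -/
theorem Ph.out_side (h : Ph iota s b x y a m) (hj : a ≤ j) (ht : t ∉ Cs iota (s j)) (hij : j ≤ i)
    (hm : i ≤ m + 1) : t ∈ wd d (s i) ↔ t ∈ wd d (s j) := by
  induction i, hij using Nat.le_induction with
  | base => exact Iff.rfl
  | succ i hij ih =>
    rw [(h.mv i (by omega) (by omega)).side (h.out_ne hj ht hij (by omega))]
    exact ih (by omega)

theorem Ph.out_bf (h : Ph iota s b x y a m) (hj : a ≤ j) (ht : t ∉ Cs iota (s j))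
    (hu : u ∉ Cs iota (s j)) (hij : j ≤ i) (hm : i ≤ m + 1) :
    Bf d (s i) t u ↔ Bf d (s j) t u := by
  induction i, hij using Nat.le_induction with
  | base => exact Iff.rfl
  | succ i hij ih =>
    rw [(h.mv i (by omega) (by omega)).ord (h.out_ne hj ht hij (by omega))
      (h.out_ne hj hu hij (by omega))]
    exact ih (by omega)

/-- Every token of the set which is no longer in it has left at some time. -/
theorem Ph.left (h : Ph iota s b x y a m) (hj : a ≤ j) (ht : t ∈ Cs iota (s j)) (hij : j ≤ i)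
    (hm : i ≤ m) (ht' : t ∉ Cs iota (s i)) :
    ∃ k, j ≤ k ∧ k < i ∧ t ∈ Cs iota (s k) ∧ t ∉ Cs iota (s (k + 1)) := by
  induction i, hij using Nat.le_induction with
  | base => exact absurd ht ht'
  | succ i hij ih =>
    by_cases h1 : t ∈ Cs iota (s i)
    · exact ⟨i, hij, by omega, h1, ht'⟩
    · obtain ⟨k, h2, h3, h4⟩ := ih (by omega) h1
      exact ⟨k, h2, by omega, h4⟩

/-- What happens when a token leaves. -/
theorem Ph.leave_facts (h : Ph iota s b x y a m) (hi : a ≤ i) (hm : i < m)
    (hs : iota (x i) ∈ wd (b i) (s i)) :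
    y i ∉ Cs iota (s (i + 1)) ∧ iota (x i) ∉ Cs iota (s i) ∧ iota (x i) ∉ Cs iota (s (i + 1)) ∧
      x i ∈ Cs iota (s (i + 1)) ∧ Bf (b i) (s (m + 1)) (y i) (iota (x i)) ∧
      y i ∈ wd (b i) (s (m + 1)) ∧ iota (x i) ∈ wd (b i) (s (m + 1)) := by
  have hv := h.mv i hi hm.le
  have h1 := h.nj i hi hm hs
  have h2 : iota (x i) ∉ Cs iota (s i) := by
    intro h'
    exact (cs_cset hv.ok).same (b i) (x i) (h.xC hi hm.le) hv.hx.mem hs h'
  have h3 : iota (x i) ∉ Cs iota (s (i + 1)) := fun h' => h2 (h.anti1 hi hm h')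
  have h4 := hv.cs_same (h.fr i hi hm.le) hs (h.xC hi hm.le) hv.xy
  have h5 : Bf (b i) (s (m + 1)) (y i) (iota (x i)) := by
    rw [h.out_bf (by omega) h1 h3 (show i + 1 ≤ m + 1 by omega) le_rfl]
    exact hv.bf hs
  exact ⟨h1, h2, h3, h4, h5, h5.mem_left, h5.mem_right⟩

/-- If the winner leaves later, it is on the other side than its partner. -/
theorem Ph.winner_left (h : Ph iota s b x y a m) (hi : a ≤ i) (hm : i < m)
    (hs : iota (x i) ∈ wd (b i) (s i)) (hj : i ≤ j) (hjm : j < m) (h1 : x i ∈ Cs iota (s j))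
    (h2 : x i ∉ Cs iota (s (j + 1))) :
    iota (x j) ∈ wd (b j) (s j) ∧ x i = y j ∧ x i ∈ wd (!(b i)) (s (m + 1)) := by
  obtain ⟨h3, h4⟩ := h.leave (by omega) (by omega) h1 h2
  refine ⟨h3, h4, ?_⟩
  have hv := h.mv j (by omega) (by omega)
  have h5 : x i ∈ wd (b i) (s j) := (h.side hi hj (by omega) h1).2 (h.mv i hi hm.le).hx.mem
  have h6 : b i = !(b j) := ok_side hv.ok h5 (by rw [h4]; exact hv.hy.mem)
  rw [h6, Bool.not_not]
  rw [h.out_side (show a ≤ j + 1 by omega) h2 (show j + 1 ≤ m + 1 by omega) le_rfl, h4]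
  exact hv.y_same h3

/-- There are no stale winners from the time `T`. -/
def Hyp (iota : α → α) (s : ℕ → List α × List α) (b : ℕ → Bool) (x y : ℕ → α) (m T : ℕ) : Prop :=
  ∀ j, T ≤ j → j < m → iota (x j) ∈ wd (b j) (s j) → x j ∈ Cs iota (s m) → x j = x m ∨ x j = y m

/-- Part (a). -/
theorem Ph.part_a (h : Ph iota s b x y a m) (ham : a ≤ m) (hsm : iota (x m) ∈ wd (b m) (s m))
    (hj : y m ∈ Cs iota (s (m + 1))) {T : ℕ} (hT : a ≤ T) (hH : Hyp iota s b x y m T) (k : ℕ) :
    ∀ i, i + k = m → T ≤ i → i < m → iota (x i) ∈ wd (b i) (s i) → y i ∈ Cs iota (s (m + 1)) := by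
  induction k using Nat.strong_induction_on with
  | _ k ih =>
    intro i hik hTi him hs
    have hvm := h.mv m ham le_rfl
    have hfm := h.fr m ham le_rfl
    obtain ⟨h1, h2, h3, h4, h5, h6, h7⟩ := h.leave_facts (by omega) him hs
    by_cases h8 : x i ∈ Cs iota (s m)
    · rcases hH i hTi him hs h8 with h9 | h9
      · exact hvm.jump_bf hfm hsm hj (d := b i) (Or.inl (by rw [← h9]; exact h5))
      · exact hvm.jump_bf hfm hsm hj (d := b i) (Or.inr (by rw [← h9]; exact h5))
    · obtain ⟨j, hj1, hj2, hj3, hj4⟩ := h.left (show a ≤ i + 1 by omega) h4 (show i + 1 ≤ m by omega)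
        le_rfl h8
      obtain ⟨h9, h10, h11⟩ := h.winner_left (by omega) him hs (by omega) hj2 hj3 hj4
      have h12 := ih (m - j) (by omega) j (by omega) (by omega) hj2 h9
      rw [← h10] at h12
      have hC := cs_cset hvm.ok'
      have h13 : iota (x i) ∈ Cs iota (s (m + 1)) := hC.mix (!(b i)) (x i) h12 h11 (by simpa using h7)
      exact hC.down (b i) _ _ h13 h5

/-- The winner is a first token at the next time. -/
theorem Ph.x_next (h : Ph iota s b x y a m) (hi : a ≤ i) (hm : i < m) :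
    x i = x (i + 1) ∨ x i = y (i + 1) := by
  have hv := h.mv i hi hm.le
  have hv1 := h.mv (i + 1) (by omega) (by omega)
  by_cases h1 : b i = b (i + 1)
  · left
    have h2 := hv.hx'
    rw [h1] at h2
    exact h2.uniq hv1.hx
  · right
    have h2 := hv.hx'
    have h3 : b i = !(b (i + 1)) := by cases hb : b i <;> cases hb' : b (i + 1) <;> simp_all
    rw [h3] at h2
    exact h2.uniq hv1.hy

/-- Part (b). -/
theorem Ph.part_b (h : Ph iota s b x y a m) (ham : a ≤ m) (hsm : iota (x m) ∈ wd (b m) (s m))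
    (hj : y m ∈ Cs iota (s (m + 1))) {T : ℕ} (hT : a ≤ T) (hH : Hyp iota s b x y m T) (k : ℕ) :
    ∀ i, i + k = m → T ≤ i → ∀ t, t = x i ∨ t = y i → t ∈ Cs iota (s m) → t = x m ∨ t = y m := by
  have hvm := h.mv m ham le_rfl
  have hfm := h.fr m ham le_rfl
  have hC := cs_cset hvm.ok
  have hC' := cs_cset hvm.ok'
  induction k using Nat.strong_induction_on with
  | _ k ih =>
    intro i hik hTi t ht htm
    by_cases him : i = m
    · subst him
      exact ht
    have him' : i < m := by omega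
    have hv := h.mv i (by omega) (by omega)
    have hfi := h.fr i (by omega) (by omega)
    have hxn := h.x_next (show a ≤ i by omega) him'
    by_contra hno
    rcases ht with rfl | rfl
    · exact hno (ih (m - (i + 1)) (by omega) (i + 1) (by omega) (by omega) _ hxn htm)
    -- `y i` is not a first token any more
    have hnh : ∀ j, i < j → j ≤ m → y i ≠ x j ∧ y i ≠ y j := by
      intro j hj1 hj2
      by_contra h1
      have h2 : y i = x j ∨ y i = y j := by tauto
      exact hno (ih (m - j) (by omega) j (by omega) (by omega) _ h2 htm)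
    -- the move is a mixed win
    have htm1 : y i ∈ Cs iota (s (i + 1)) := h.anti (by omega) (by omega) le_rfl htm
    have hmix : iota (x i) ∈ wd (!(b i)) (s i) := by
      rcases h.dich (show a ≤ i by omega) him'.le with h1 | h1
      · exact absurd htm1 (h.nj i (by omega) him' h1)
      · exact h1
    have hb1 : Bf (!(b i)) (s (i + 1)) (y i) (iota (x i)) := hv.bf hmix
    have hxi : iota (x i) ∈ Cs iota (s i) :=
      (cs_cset hv.ok).mix (b i) (x i) (h.xC (by omega) (by omega)) hv.hx.mem hmix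
    have hxi1 : iota (x i) ∈ Cs iota (s (i + 1)) := (hv.cs_mix hfi hmix).2 hxi
    -- the partner of the winner does not move and is never a first token
    have hstay : ∀ j, i + 1 ≤ j → j ≤ m →
        Bf (!(b i)) (s j) (y i) (iota (x i)) ∧ iota (x i) ∈ Cs iota (s j) := by
      intro j hj1
      induction j, hj1 using Nat.le_induction with
      | base => intro _; exact ⟨hb1, hxi1⟩
      | succ j hj1 ih2 =>
        intro hj2
        obtain ⟨h1, h2⟩ := ih2 (by omega)
        have hvj := h.mv j (by omega) (by omega)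
        have h3 : iota (x i) ≠ y j := by
          intro h4
          have h5 : (!(b i)) = (!(b j)) := ok_side hvj.ok h1.mem_right (by rw [h4]; exact hvj.hy.mem)
          rw [h4, h5] at h1
          exact hvj.hy.not_bf hvj.ok h1
        refine ⟨(hvj.ord (hnh j (by omega) (by omega)).2 h3).2 h1, ?_⟩
        by_contra h4
        exact h3 (h.leave (by omega) (by omega) h2 h4).2
    obtain ⟨hbm, hxm⟩ := hstay m (by omega) le_rfl
    have h3 : iota (x i) ≠ y m := by
      intro h4
      have h5 : (!(b i)) = (!(b m)) := ok_side hvm.ok hbm.mem_right (by rw [h4]; exact hvm.hy.mem)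
      rw [h4, h5] at hbm
      exact hvm.hy.not_bf hvm.ok hbm
    have hxm1 : iota (x i) ∈ Cs iota (s (m + 1)) := hvm.cs_same hfm hsm hxm h3
    have hxside : iota (x i) ∈ wd (!(b i)) (s (m + 1)) := (hvm.side h3).2 hbm.mem_right
    have hx1 : x i ∈ Cs iota (s (i + 1)) := (hv.cs_mix hfi hmix).2 (h.xC (by omega) (by omega))
    by_cases hxc : x i ∈ Cs iota (s m)
    · -- the winner is a mixed token at the end, but the first tokens are not
      have h4 := ih (m - (i + 1)) (by omega) (i + 1) (by omega) (by omega) _ hxn hxc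
      have h5 : x i ∈ wd (b i) (s m) := (h.side (by omega) (by omega) le_rfl hxc).2 hv.hx.mem
      rcases h4 with h4 | h4
      · rw [h4] at h5 hbm
        obtain h6 := ok_side hvm.ok h5 hvm.hx.mem
        rw [h6] at hbm
        exact ok_dj hvm.ok hsm hbm.mem_right
      · rw [h4] at h5 hbm
        obtain h6 := ok_side hvm.ok h5 hvm.hy.mem
        rw [h6] at hbm
        exact ok_dj hvm.ok (hvm.jump_y hfm hsm hj).1 hbm.mem_right
    · -- the winner has left to the side of its partner
      obtain ⟨j, hj1, hj2, hj3, hj4⟩ := h.left (show a ≤ i + 1 by omega) hx1 (show i + 1 ≤ m by omega)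
        le_rfl hxc
      obtain ⟨h5, h6⟩ := h.leave (by omega) (by omega) hj3 hj4
      have hvj := h.mv j (by omega) (by omega)
      have h7 : x i ∈ wd (b i) (s j) := (h.side (by omega) (by omega) (by omega) hj3).2 hv.hx.mem
      have h8 : b i = !(b j) := ok_side hvj.ok h7 (by rw [h6]; exact hvj.hy.mem)
      have h9 : x i ∈ wd (!(b i)) (s (m + 1)) := by
        rw [h8, Bool.not_not, h.out_side (show a ≤ j + 1 by omega) hj4 (show j + 1 ≤ m + 1 by omega)
          le_rfl, h6]
        exact hvj.y_same h5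
      have h10 := h.part_a ham hsm hj hT hH (m - j) j (by omega) (by omega) hj2 h5
      rw [← h6] at h10
      exact hC'.same (!(b i)) (x i) h10 h9 hxside hxm1

/-- Part (c): there are no stale winners. -/
theorem Ph.part_c (h : Ph iota s b x y a m) (ham : a ≤ m) (hsm : iota (x m) ∈ wd (b m) (s m))
    (hj : y m ∈ Cs iota (s (m + 1))) (k : ℕ) :
    ∀ T, T + k = m → a ≤ T → Hyp iota s b x y m T := by
  induction k with
  | zero =>
    intro T hT _ j h1 h2
    omega
  | succ k ih =>
    intro T hT haT j h1 h2 hs hx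
    rcases eq_or_lt_of_le h1 with h3 | h3
    · subst h3
      have h4 := ih (T + 1) (by omega) (by omega)
      exact h.part_b ham hsm hj (by omega) h4 k (T + 1) (by omega) le_rfl _
        (h.x_next (by omega) h2) hx
    · exact ih (T + 1) (by omega) (by omega) j (by omega) h2 hs hx

/-- **Two successive jumps**: the set after the second one contains the set after the first one. -/
theorem Ph.superset (h : Ph iota s b x y a m) (ham : a ≤ m) (hsm : iota (x m) ∈ wd (b m) (s m))
    (hj : y m ∈ Cs iota (s (m + 1))) (ht : t ∈ Cs iota (s a)) : t ∈ Cs iota (s (m + 1)) := by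
  have hH := h.part_c ham hsm hj (m - a) a (by omega) le_rfl
  by_cases h1 : t ∈ Cs iota (s m)
  · by_cases h2 : t = y m
    · rw [h2]; exact hj
    · exact (h.mv m ham le_rfl).cs_same (h.fr m ham le_rfl) hsm h1 h2
  · obtain ⟨j, hj1, hj2, hj3, hj4⟩ := h.left le_rfl ht ham le_rfl h1
    obtain ⟨h3, h4⟩ := h.leave hj1 hj2.le hj3 hj4
    rw [h4]
    exact h.part_a ham hsm hj le_rfl hH (m - j) j (by omega) hj1 hj2 h3

/-- The inclusion is proper. -/
theorem Ph.proper (h : Ph iota s b x y a m) (ham : a ≤ m) (hsm : iota (x m) ∈ wd (b m) (s m))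
    (hj : y m ∈ Cs iota (s (m + 1))) (k : ℕ) : ∀ j, j + k = m → a ≤ j →
      ∃ t, t ∈ wd (!(b m)) (s (m + 1)) ∧ t ∈ Cs iota (s (m + 1)) ∧ t ∉ Cs iota (s j) := by
  have hH := h.part_c ham hsm hj (m - a) a (by omega) le_rfl
  have hvm := h.mv m ham le_rfl
  have hfm := h.fr m ham le_rfl
  have hC' := cs_cset hvm.ok'
  obtain ⟨hy1, hy2, hy3⟩ := hvm.jump_y hfm hsm hj
  induction k with
  | zero =>
    intro j hjm _
    obtain rfl : j = m := by omega
    refine ⟨iota (y j), hy2, hy3, ?_⟩
    exact (cs_cset hvm.ok).same _ _ (h.yC ham le_rfl) hvm.hy.mem hy1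
  | succ k ih =>
    intro j hjk haj
    obtain ⟨t, ht1, ht2, ht3⟩ := ih (j + 1) (by omega) (by omega)
    by_cases h1 : t ∈ Cs iota (s j)
    · obtain ⟨h2, h3⟩ := h.leave haj (by omega) h1 ht3
      subst h3
      obtain ⟨h4, h5, h6, h7, h8, h9, h10⟩ := h.leave_facts haj (by omega) h2
      have h11 : (!(b m)) = b j := ok_side hvm.ok' ht1 h9
      refine ⟨iota (x j), by rw [h11]; exact h10, ?_, h5⟩
      by_cases h12 : x j ∈ Cs iota (s m)
      · rcases hH j haj (by omega) h2 h12 with h13 | h13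
        · exfalso
          have h14 : x j ∈ wd (b j) (s m) :=
            (h.side haj (by omega) le_rfl h12).2 (h.mv j haj (by omega)).hx.mem
          rw [h13, ← h11] at h14
          exact ok_dj hvm.ok hvm.hx.mem h14
        · rw [h13]; exact hy3
      · obtain ⟨i, hi1, hi2, hi3, hi4⟩ := h.left (show a ≤ j + 1 by omega) h7
          (show j + 1 ≤ m by omega) le_rfl h12
        obtain ⟨h13, h14, h15⟩ := h.winner_left haj (by omega) h2 (by omega) hi2 hi3 hi4
        have h16 := h.part_a ham hsm hj le_rfl hH (m - i) i (by omega) (by omega) hi2 h13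
        rw [← h14] at h16
        exact hC'.mix (!(b j)) (x j) h16 h15 (by simpa using h10)
    · exact ⟨t, ht1, ht2, h1⟩

end Pool.Agent.QuadEq.Free
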