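import Pool.Agent.Lib.MP_b7851d_lc.Free.Count

/-!
# Free paths of variable words
-/

namespace Pool.Agent.QuadEq.Free

open Pool.Agent.QuadEq.Star

set_option linter.unusedSectionVars false

variable {α : Type*} [DecidableEq α] {iota : α → α} {A A' : List α × List α}
variable {c : Bool} {x y t : α}

/-! ### The steps of the variable words -/

theorem insB_notMem {u v : α} {l : List α} (h : u ∉ l) : insB u v l = l := by
  induction l with
  | nil => rfl
  | cons a l ih =>
    rw [insB, if_neg (fun e => h (by simp [e])), ih (fun e => h (List.mem_cons_of_mem _ e))]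

theorem insB_split {u v : α} {l₁ l₂ : List α} (h : u ∉ l₁) :
    insB u v (l₁ ++ u :: l₂) = l₁ ++ v :: u :: l₂ := by
  induction l₁ with
  | nil => simp [insB]
  | cons a l ih =>
    rw [List.cons_append, insB, if_neg (fun e => h (by simp [e])),
      ih (fun e => h (List.mem_cons_of_mem _ e))]
    rfl

theorem insB_filter {u v : α} {l : List α} : (insB u v l).filter (· ≠ v) = l.filter (· ≠ v) := by
  induction l with
  | nil => rfl
  | cons a l ih =>
    rw [insB]
    by_cases h : a = u
    · rw [if_pos h, List.filter_cons_of_neg (by simp)]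
    · rw [if_neg h]
      by_cases h2 : a = v
      · subst h2
        rw [List.filter_cons_of_neg (by simp), List.filter_cons_of_neg (by simp), ih]
      · rw [List.filter_cons_of_pos (by simp [h2]), List.filter_cons_of_pos (by simp [h2]), ih]

/-- The tokens of a T step. -/
theorem tW_spec (hs : tW iota A = some A') : ∃ x y P Q, A = (x :: P, y :: Q) ∧
    y ≠ iota x ∧ Q ≠ [] ∧ A' = (x :: insB (iota x) y P, insB (iota x) y Q) := by
  unfold tW at hs
  split at hs
  · rename_i x P y Q e1 e2
    split at hs
    · exact absurd hs (by simp)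
    · rename_i hne
      push Not at hne
      exact ⟨x, y, P, Q, Prod.ext e1 e2, hne.1, hne.2, (Option.some.inj hs).symm⟩
  · exact absurd hs (by simp)

/-- A T step is a move. -/
theorem mv_true (h : OkW iota A) (hs : tW iota A = some A') : ∃ x y, Mv iota true x y A A' := by
  obtain ⟨x, y, P, Q, rfl, h1, h2, rfl⟩ := tW_spec hs
  have hnd := h.nd
  rw [List.cons_append, List.nodup_cons, List.mem_append, List.mem_cons, List.nodup_append,
    List.nodup_cons] at hnd
  obtain ⟨hx, hP, ⟨hy, hQ⟩, hPQ⟩ := hnd
  push Not at hx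
  have hxx : iota x ≠ x := h.ne x (by simp)
  have hix : iota x ∈ P ∨ iota x ∈ Q := by
    have := h.mem x (by simp)
    simp only [List.cons_append, List.mem_cons, List.mem_append] at this
    rcases this with h3 | h3 | h3 | h3
    · exact absurd h3 hxx
    · exact Or.inl h3
    · exact absurd h3.symm h1
    · exact Or.inr h3
  have hplc : ∀ d, iota x ∈ wd d (x :: P, y :: Q) →
      ∃ l₁ l₂, wd d (x :: insB (iota x) y P, insB (iota x) y Q) = l₁ ++ y :: iota x :: l₂ := by
    intro d hd
    cases d
    · rw [wd_false, List.mem_cons] at hd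
      have h3 : iota x ∈ Q := hd.resolve_left (fun e => h1 e.symm)
      obtain ⟨l₁, l₂, h4, h5⟩ := List.eq_append_cons_of_mem h3
      refine ⟨l₁, l₂, ?_⟩
      rw [wd_false]
      simp only
      rw [h4, insB_split h5]
    · rw [wd_true, List.mem_cons] at hd
      have h3 : iota x ∈ P := hd.resolve_left hxx
      obtain ⟨l₁, l₂, h4, h5⟩ := List.eq_append_cons_of_mem h3
      refine ⟨x :: l₁, l₂, ?_⟩
      rw [wd_true]
      simp only
      rw [h4, insB_split h5]
      rfl
  have hperm : List.Perm ((x :: insB (iota x) y P) ++ insB (iota x) y Q) ((x :: P) ++ (y :: Q)) := by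
    rw [List.cons_append, List.cons_append]
    refine List.Perm.cons x ?_
    rcases hix with h3 | h3
    · have h4 : iota x ∉ Q := fun h' => hPQ _ h3 _ (List.mem_cons_of_mem _ h') rfl
      obtain ⟨l₁, l₂, h5, h6⟩ := List.eq_append_cons_of_mem h3
      rw [insB_notMem h4, h5, insB_split h6, List.append_assoc]
      rw [List.append_assoc]
      refine List.Perm.append_left l₁ ?_
      rw [List.cons_append, List.cons_append]
      exact (List.perm_middle (a := y) (l₁ := iota x :: l₂) (l₂ := Q)).symm
    · have h4 : iota x ∉ P := fun h' => hPQ _ h' _ (List.mem_cons_of_mem _ h3) rfl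
      obtain ⟨l₁, l₂, h5, h6⟩ := List.eq_append_cons_of_mem h3
      rw [insB_notMem h4, h5, insB_split h6]
      refine List.Perm.append_left P ?_
      exact List.perm_middle
  refine ⟨x, y, h, h.of_perm hperm, ⟨P, rfl⟩, ⟨Q, rfl⟩, ⟨_, rfl⟩, h1, ?_, hplc⟩
  intro d
  cases d
  · rw [wd_false, wd_false]
    simp only
    rw [insB_filter, List.filter_cons_of_neg (by simp)]
  · rw [wd_true, wd_true]
    simp only
    have hxy : x ≠ y := fun e => hx.2.1 e
    rw [List.filter_cons_of_pos (by simp [hxy]), List.filter_cons_of_pos (by simp [hxy]), insB_filter]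

theorem Hd.swap {d : Bool} (h : Hd d A x) : Hd (!d) A.swap x := by
  obtain ⟨l, hl⟩ := h
  exact ⟨l, by rw [wd_swap, Bool.not_not]; exact hl⟩

theorem Mv.swap (h : Mv iota c x y A A') : Mv iota (!c) x y A.swap A'.swap where
  ok := h.ok.swap
  ok' := h.ok'.swap
  hx := h.hx.swap
  hy := h.hy.swap
  hx' := h.hx'.swap
  ne := h.ne
  flt := by
    intro d
    rw [wd_swap, wd_swap]
    exact h.flt _
  plc := by
    intro d hd
    rw [wd_swap] at hd ⊢
    exact h.plc _ hd

/-- A step is a move. -/
theorem mv_step (h : OkW iota A) (hs : stepW iota c A = some A') : ∃ x y, Mv iota c x y A A' := by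
  cases c
  · have h1 : bW iota A = some A' := hs
    unfold bW at h1
    rw [Option.map_eq_some_iff] at h1
    obtain ⟨B, h2, h3⟩ := h1
    obtain ⟨x, y, h4⟩ := mv_true h.swap h2
    refine ⟨x, y, ?_⟩
    have h5 := h4.swap
    rw [Prod.swap_swap, h3] at h5
    exact h5
  · exact mv_true h hs

theorem Mv.same_iff (h : Mv iota c x y A A') : Same iota c A ↔ iota x ∈ wd c A := by
  obtain ⟨l, hl⟩ := h.hx
  have hne := ok_ne h.ok h.hx.mem
  cases c
  · rw [wd_false] at hl
    unfold Same
    rw [wd_false, hl]
    constructor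
    · rintro ⟨x', P, Q, h1, h2⟩
      have h3 : A.2 = x' :: P := by
        have := congrArg Prod.fst h1
        simpa using this
      rw [hl] at h3
      obtain ⟨rfl, rfl⟩ := List.cons.inj h3
      exact List.mem_cons_of_mem _ h2
    · intro h1
      refine ⟨x, l, A.1, ?_, ?_⟩
      · simp only [cond_false]
        exact Prod.ext hl rfl
      · exact (List.mem_cons.1 h1).resolve_left hne
  · rw [wd_true] at hl
    unfold Same
    rw [wd_true, hl]
    constructor
    · rintro ⟨x', P, Q, h1, h2⟩
      have h3 : A.1 = x' :: P := by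
        have := congrArg Prod.fst h1
        simpa using this
      rw [hl] at h3
      obtain ⟨rfl, rfl⟩ := List.cons.inj h3
      exact List.mem_cons_of_mem _ h2
    · intro h1
      refine ⟨x, l, A.2, ?_, ?_⟩
      · simp only [cond_true]
        exact Prod.ext hl rfl
      · exact (List.mem_cons.1 h1).resolve_left hne

/-- **Free paths.** On a path of free states of words with together at most `T` tokens there are at
most `T * (T + 1) + T` same-side wins. -/
theorem free_count {s : ℕ → List α × List α} {b : ℕ → Bool} {N : ℕ} (h : OkW iota (s 0))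
    (hs : ∀ i < N, stepW iota (b i) (s i) = some (s (i + 1))) (hf : ∀ i < N, Fr iota (s i))
    (c : ℕ → ℕ) (c0 : c 0 = 0)
    (hc : ∀ i < N, (Same iota (b i) (s i) → c (i + 1) = c i + 1) ∧
      (¬ Same iota (b i) (s i) → c (i + 1) = c i)) {T : ℕ}
    (hT : (s 0).1.length + (s 0).2.length ≤ T) : c N ≤ T * (T + 1) + T := by
  have hok : ∀ i ≤ N, OkW iota (s i) := by
    intro i
    induction i with
    | zero => intro _; exact h
    | succ i ih =>
      intro hi
      obtain ⟨x, y, h1⟩ := mv_step (ih (by omega)) (hs i (by omega))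
      exact h1.ok'
  rcases Nat.eq_zero_or_pos N with hN | hN
  · subst hN
    rw [c0]
    exact Nat.zero_le _
  have hmv : ∀ i, ∃ xy : α × α, i < N → Mv iota (b i) xy.1 xy.2 (s i) (s (i + 1)) := by
    intro i
    by_cases hi : i < N
    · obtain ⟨x, y, h1⟩ := mv_step (hok i hi.le) (hs i hi)
      exact ⟨(x, y), fun _ => h1⟩
    · obtain ⟨x, y, h1⟩ := mv_step (hok 0 hN.le) (hs 0 hN)
      exact ⟨(x, x), fun h' => absurd h' hi⟩
  choose xy hxy using hmv
  refine count (s := s) (b := b) (xs := fun i => (xy i).1) (ys := fun i => (xy i).2) hxy hf c c0 ?_ ?_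
  · intro i hi
    have h1 := hxy i hi
    constructor
    · intro h2
      exact (hc i hi).1 (h1.same_iff.2 h2)
    · intro h2
      exact (hc i hi).2 (fun h3 => ok_dj h1.ok (h1.same_iff.1 h3) h2)
  · refine (List.toFinset_card_le _).trans ?_
    rw [List.length_append]
    exact hT

end Pool.Agent.QuadEq.Free
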