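import Pool.Agent.Lib.MP_b7851d_lc.Free.Hub
import Pool.Agent.Lib.MP_b7851d_lc.Star.StarOf

/-!
# Free paths, the statement of the assembly
-/

namespace Pool.Agent.QuadEq.Free

open Pool.Agent.QuadEq.Star Pool.Agent.QuadEq.Star.Asm Pool.Agent.PolyTime

set_option linter.unusedSectionVars false

variable {α : Type} [DecidableEq α] {iota : α → α} {A B : List α × List α}

theorem fr_of_cpr (h : OkW iota A) (hc : CPr iota A) : Fr iota A := by
  obtain ⟨P, R, Q, W, rfl, hP, hQ, h1, h2⟩ := hc
  have hnd := h.nd
  refine fr_of_pair h rfl hP hQ ?_ ?_ ?_ ?_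
  all_goals
    intro z hz
    have h3 := h1 z
    have h4 := h2 z
    simp only [List.nodup_append, List.mem_append] at hnd h3 h4 ⊢
    grind

theorem cpr_of_fr (h : OkW iota A) (hf : Fr iota A) : CPr iota A := by
  classical
  have hC := cs_cset h
  -- initial segments
  have key : ∀ d, ∃ P R, wd d A = P ++ R ∧ P ≠ [] ∧ (∀ z ∈ P, z ∈ Cs iota A) ∧
      ∀ z ∈ R, z ∉ Cs iota A := by
    intro d
    have hn := ok_nd h d
    obtain ⟨t, ht1, ht2⟩ := hf d
    have : ∀ l : List α, l.Nodup → (∀ t z, z ∈ Cs iota A → [t, z].Sublist l → t ∈ Cs iota A) →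
        ∃ P R, l = P ++ R ∧ (∀ z ∈ P, z ∈ Cs iota A) ∧ ∀ z ∈ R, z ∉ Cs iota A := by
      intro l
      induction l with
      | nil => intro _ _; exact ⟨[], [], rfl, by simp, by simp⟩
      | cons a l ih =>
        intro hn hd
        by_cases ha : a ∈ Cs iota A
        · obtain ⟨P, R, h1, h2, h3⟩ := ih (List.nodup_cons.1 hn).2
            (fun t z hz hs => hd t z hz (hs.trans (List.sublist_cons_self a l)))
          refine ⟨a :: P, R, by rw [h1]; rfl, ?_, h3⟩
          intro z hz
          rcases List.mem_cons.1 hz with rfl | hz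
          · exact ha
          · exact h2 z hz
        · refine ⟨[], a :: l, rfl, by simp, ?_⟩
          intro z hz hzC
          rcases List.mem_cons.1 hz with rfl | hz
          · exact ha hzC
          · exact ha (hd a z hzC (List.Sublist.cons₂ a (List.singleton_sublist.2 hz)))
    obtain ⟨P, R, h1, h2, h3⟩ := this (wd d A) hn (fun t z hz hs => hC.down d t z hz hs)
    refine ⟨P, R, h1, ?_, h2, h3⟩
    rintro rfl
    rw [h1, List.nil_append] at ht1
    exact h3 t ht1 ht2
  obtain ⟨P, R, h1, h2, h3, h4⟩ := key true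
  obtain ⟨Q, W, h5, h6, h7, h8⟩ := key false
  have hm : ∀ z d, z ∈ wd d A → iota z ∈ wd d A ∨ iota z ∈ wd (!d) A := fun z d hz => ok_mem h d hz
  refine ⟨P, R, Q, W, Prod.ext h1 h5, h2, h6, ?_, ?_⟩
  · intro z hz
    have hzA : z ∈ wd true A := by rw [h1]; exact List.mem_append_left _ hz
    rcases hm z true hzA with h9 | h9
    · right
      have h10 := hC.same true z (h3 z hz) hzA h9
      rw [h1, List.mem_append] at h9
      exact h9.resolve_left (fun h' => h10 (h3 _ h'))
    · left
      have h10 := hC.mix true z (h3 z hz) hzA h9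
      have h11 : iota z ∈ wd false A := h9
      rw [h5, List.mem_append] at h11
      exact h11.resolve_right (fun h' => h8 _ h' h10)
  · intro z hz
    have hzA : z ∈ wd false A := by rw [h5]; exact List.mem_append_left _ hz
    rcases hm z false hzA with h9 | h9
    · right
      have h10 := hC.same false z (h7 z hz) hzA h9
      rw [h5, List.mem_append] at h9
      exact h9.resolve_left (fun h' => h10 (h7 _ h'))
    · left
      have h10 := hC.mix false z (h7 z hz) hzA h9
      have h11 : iota z ∈ wd true A := h9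
      rw [h1, List.mem_append] at h11
      exact h11.resolve_right (fun h' => h4 _ h' h10)

/-- **The free paths.** -/
theorem freeStm : FreeStm (fun n => n * (n + 1) + n) := by
  intro α _ iota A B hA _ hc h
  have h1 : OkW iota B ∧ Relation.ReflTransGen
      (fun X Y => (∃ b, stepW iota b X = some Y) ∧ Fr iota Y) A B := by
    induction h with
    | refl => exact ⟨hA, Relation.ReflTransGen.refl⟩
    | tail _ h2 ih =>
      obtain ⟨h3, h4⟩ := ih
      obtain ⟨⟨b, hb⟩, -, h6⟩ := h2
      obtain ⟨x, y, hv⟩ := mv_step h3 hb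
      exact ⟨hv.ok', h4.tail ⟨⟨b, hb⟩, fr_of_cpr hv.ok' h6⟩⟩
  exact gap hA (fr_of_cpr hA hc) le_rfl h1.2

theorem pb_free : PB (fun n => n * (n + 1) + n) :=
  (PB.id.mul (PB.id.add (PB.const 1))).add PB.id

/-- **Hubs.** A state without free pair is joined by mixed wins, in both directions, with a state in
which the first token of one word is a same-side token, the first token of the other word is mixed,
and the pair of the former stands before the partner of the latter. -/
theorem hub_of_not_cpr (hA : OkW iota A) (h1 : A.1 ≠ []) (h2 : A.2 ≠ []) (h : ¬ CPr iota A) :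
    ∃ A', MC iota A A' ∧ (PP0 iota A' ∨ PP0 iota A'.swap) := by
  rcases hub hA h1 h2 with h3 | h3
  · exact absurd (cpr_of_fr hA h3) h
  · exact h3

end Pool.Agent.QuadEq.Free
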